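import Mathlib
import Pool.Agent.helper67.ND.Defs

/-!
Module B of the proof of the `n/d` conjecture, part 1: the kernel `S` along lists.
-/

namespace Pool.Agent.helper43.NDB

open Pool.Agent.helper67.ND

open scoped BigOperators

section lists

variable {k : Type} [Field k] {ι : Type} {V : Type} [AddCommGroup V] [Module k V]

/-- The span of the vectors of a list. -/
def sp (l : ι → V) (L : List ι) : Submodule k V := Submodule.span k (l '' {j | j ∈ L})

variable (k) in
/-- The list has distinct and linearly independent members. -/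
def Ind (l : ι → V) (L : List ι) : Prop := L.Nodup ∧ LinearIndepOn k l {j | j ∈ L}

theorem sp_nil (l : ι → V) : sp (k := k) l [] = ⊥ := by
  simp [sp]

theorem sp_perm (l : ι → V) {L L' : List ι} (h : L.Perm L') : sp (k := k) l L = sp l L' := by
  have : {j | j ∈ L} = {j | j ∈ L'} := by
    ext j; simp [h.mem_iff]
  rw [sp, sp, this]

theorem sp_mono (l : ι → V) {L L' : List ι} (h : ∀ j ∈ L, j ∈ L') :
    sp (k := k) l L ≤ sp l L' :=
  Submodule.span_mono (Set.image_mono (fun j hj => h j hj))

theorem mem_sp (l : ι → V) {L : List ι} {j : ι} (h : j ∈ L) : l j ∈ sp (k := k) l L :=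
  Submodule.subset_span ⟨j, h, rfl⟩

theorem sp_cons (l : ι → V) (b : ι) (L : List ι) :
    sp (k := k) l (b :: L) = Submodule.span k {l b} ⊔ sp l L := by
  have : {j | j ∈ b :: L} = {b} ∪ {j | j ∈ L} := by
    ext j; simp
  rw [sp, this, Set.image_union, Submodule.span_union, Set.image_singleton, sp]

theorem sp_append (l : ι → V) (L L' : List ι) :
    sp (k := k) l (L ++ L') = sp l L ⊔ sp l L' := by
  have : {j | j ∈ L ++ L'} = {j | j ∈ L} ∪ {j | j ∈ L'} := by
    ext j; simp
  rw [sp, this, Set.image_union, Submodule.span_union, sp, sp]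

theorem sp_le (l : ι → V) {L : List ι} {W : Submodule k V} (h : ∀ j ∈ L, l j ∈ W) :
    sp (k := k) l L ≤ W := by
  rw [sp, Submodule.span_le]
  rintro _ ⟨j, hj, rfl⟩
  exact h j hj

theorem ind_nil (l : ι → V) : Ind k l [] := by
  refine ⟨List.nodup_nil, ?_⟩
  simp

theorem Ind.perm {l : ι → V} {L L' : List ι} (h : L.Perm L') (hL : Ind k l L) : Ind k l L' := by
  refine ⟨h.nodup_iff.1 hL.1, ?_⟩
  have : {j | j ∈ L} = {j | j ∈ L'} := by
    ext j; simp [h.mem_iff]
  rw [← this]; exact hL.2

theorem Ind.sublist {l : ι → V} {L L' : List ι} (h : L.Sublist L') (hL : Ind k l L') :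
    Ind k l L :=
  ⟨hL.1.sublist h, hL.2.mono (fun _ hj => h.subset hj)⟩

theorem Ind.of_cons {l : ι → V} {b : ι} {L : List ι} (hL : Ind k l (b :: L)) : Ind k l L :=
  hL.sublist (List.sublist_cons_self b L)

theorem ind_cons {l : ι → V} {b : ι} {L : List ι} :
    Ind k l (b :: L) ↔ Ind k l L ∧ l b ∉ sp (k := k) l L := by
  have hs : {j | j ∈ b :: L} = insert b {j | j ∈ L} := by
    ext j; simp
  constructor
  · intro h
    refine ⟨h.of_cons, ?_⟩
    have hb : b ∉ {j | j ∈ L} := by
      have := h.1
      rw [List.nodup_cons] at this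
      exact this.1
    have h2 := h.2
    rw [hs, linearIndepOn_insert hb] at h2
    exact h2.2
  · rintro ⟨h, hb⟩
    have hb' : b ∉ {j | j ∈ L} := fun hb' => hb (mem_sp l hb')
    refine ⟨List.nodup_cons.2 ⟨hb', h.1⟩, ?_⟩
    rw [hs, linearIndepOn_insert hb']
    exact ⟨h.2, hb⟩

theorem Ind.mid {l : ι → V} {b : ι} {L L' : List ι} (h : Ind k l L) (hL : (b :: L').Perm L) :
    Ind k l (b :: L') := h.perm hL.symm

theorem ind_iff {l : ι → V} {L : List ι} :
    Ind k l L ↔ LinearIndependent k (fun i : Fin L.length => l (L.get i)) := by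
  constructor
  · rintro ⟨h1, h2⟩
    have hinj : Function.Injective (fun i : Fin L.length => (⟨L.get i, L.get_mem i⟩ :
        {j // j ∈ {j | j ∈ L}})) := by
      intro i j hij
      have := congrArg Subtype.val hij
      exact (List.nodup_iff_injective_get.1 h1) this
    exact LinearIndependent.comp h2 _ hinj
  · intro h
    have hinj : Function.Injective (L.get) := by
      intro i j hij
      apply h.injective
      simp only [hij]
    have hnd : L.Nodup := List.nodup_iff_injective_get.2 hinj
    refine ⟨hnd, ?_⟩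
    have hs : {j | j ∈ L} = Set.range L.get := by
      ext j
      simp [List.mem_iff_get]
    rw [hs, linearIndepOn_range_iff hinj]
    exact h

theorem span_range_get (l : ι → V) (L : List ι) :
    Submodule.span k (Set.range (fun i : Fin L.length => l (L.get i))) = sp l L := by
  have hs : Set.range (fun i : Fin L.length => l (L.get i)) = l '' {j | j ∈ L} := by
    ext v
    constructor
    · rintro ⟨i, rfl⟩
      exact ⟨L.get i, L.get_mem i, rfl⟩
    · rintro ⟨j, hj, rfl⟩
      obtain ⟨i, rfl⟩ := List.mem_iff_get.1 hj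
      exact ⟨i, rfl⟩
  rw [hs, sp]

/-- intersection of spans of sublists of an independent list. -/
theorem sp_inf {l : ι → V} {L : List ι} (hL : Ind k l L) {A B : Set ι}
    (hA : ∀ j ∈ A, j ∈ L) (hB : ∀ j ∈ B, j ∈ L) :
    Submodule.span k (l '' A) ⊓ Submodule.span k (l '' B) ≤ Submodule.span k (l '' (A ∩ B)) := by
  intro v hv
  obtain ⟨h1, h2⟩ := Submodule.mem_inf.1 hv
  have hA' : A ⊆ {j | j ∈ L} := hA
  have hB' : B ⊆ {j | j ∈ L} := hB
  rw [Finsupp.mem_span_image_iff_linearCombination] at h1 h2 ⊢
  obtain ⟨f, hf, hfv⟩ := h1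
  obtain ⟨g, hg, hgv⟩ := h2
  have hfg : f = g := by
    have hind := hL.2
    rw [linearIndepOn_iff] at hind
    have := hind (f - g) (by
      apply Submodule.sub_mem
      · exact Finsupp.supported_mono hA' hf
      · exact Finsupp.supported_mono hB' hg) (by rw [map_sub, hfv, hgv, sub_self])
    exact sub_eq_zero.1 this
  refine ⟨f, ?_, hfv⟩
  rw [Finsupp.mem_supported] at hf hg ⊢
  intro j hj
  exact ⟨hf hj, hg (hfg ▸ hj)⟩

end lists

section E

variable {ι : Type} {K : Type} [Field K]

/-- The alternating sum over the deletions of a member of a list. -/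
def E : List ι → (List ι → K) → K
  | [], _ => 0
  | x :: L, g => g L - E L (fun M => g (x :: M))

theorem E_congr : ∀ (L : List ι) (g g' : List ι → K),
    (∀ b M, (b :: M).Perm L → g M = g' M) → E L g = E L g'
  | [], _, _, _ => rfl
  | x :: L, g, g', h => by
      rw [E, E, h x L (List.Perm.refl _)]
      congr 1
      refine E_congr L _ _ fun b M hM => h b (x :: M) ?_
      exact (List.Perm.swap x b M).trans (hM.cons x)

theorem E_zero : ∀ (L : List ι), E L (fun _ => (0 : K)) = 0
  | [] => rfl
  | x :: L => by rw [E, E_zero L]; simp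

theorem E_vanish (L : List ι) (g : List ι → K) (h : ∀ b M, (b :: M).Perm L → g M = 0) :
    E L g = 0 := by
  rw [E_congr L g (fun _ => 0) h, E_zero]

theorem E_mul : ∀ (L : List ι) (c : K) (g : List ι → K),
    E L (fun M => c * g M) = c * E L g
  | [], c, g => by simp [E]
  | x :: L, c, g => by rw [E, E, E_mul L c (fun M => g (x :: M))]; ring

theorem E_sub : ∀ (L : List ι) (g g' : List ι → K),
    E L (fun M => g M - g' M) = E L g - E L g'
  | [], g, g' => by simp [E]
  | x :: L, g, g' => by
      rw [E, E, E, E_sub L (fun M => g (x :: M)) (fun M => g' (x :: M))]; ring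

theorem E_append : ∀ (L1 L2 : List ι) (g : List ι → K),
    E (L1 ++ L2) g = E L1 (fun M => g (M ++ L2)) + (-1) ^ L1.length * E L2 (fun M => g (L1 ++ M))
  | [], L2, g => by simp [E]
  | x :: L1, L2, g => by
      rw [List.cons_append, E, E, E_append L1 L2 (fun M => g (x :: M)), List.length_cons, pow_succ]
      simp only [List.cons_append]
      ring

theorem E_eq_sum : ∀ (L : List ι) (g : List ι → K),
    E L g = ∑ i : Fin L.length, (-1) ^ (i : ℕ) * g (L.eraseIdx i)
  | [], g => by simp [E]
  | x :: L, g => by
      rw [E, E_eq_sum L]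
      simp only [List.length_cons]
      rw [Fin.sum_univ_succ]
      simp only [Fin.val_zero, pow_zero, one_mul, List.eraseIdx_zero, List.tail_cons,
        Fin.val_succ, List.eraseIdx_cons_succ]
      rw [sub_eq_add_neg, ← Finset.sum_neg_distrib]
      congr 1
      refine Finset.sum_congr rfl fun i _ => ?_
      ring

end E

section T

variable {k K : Type} [Field k] [Field K] [Algebra k K]
variable {ι : Type} [Fintype ι] {V : Type} [AddCommGroup V] [Module k V]

/-- The kernel along a list. -/
noncomputable def T (l : ι → V) (α : ι → K) (L : List ι) (ψ : ExteriorAlgebra k (ι → k)) : K :=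
  S l α L.length (fun i => l (L.get i)) ψ

theorem S_congr_len (l : ι → V) (α : ι → K) {n m : ℕ} (h : n = m) (J : Fin n → V)
    (J' : Fin m → V) (hJ : ∀ i, J i = J' (Fin.cast h i)) (ψ : ExteriorAlgebra k (ι → k)) :
    S l α n J ψ = S l α m J' ψ := by
  subst h
  have : J = J' := funext hJ
  rw [this]

theorem T_nil (l : ι → V) (α : ι → K) (ψ : ExteriorAlgebra k (ι → k)) :
    T l α [] ψ = algebraMap k K (ExteriorAlgebra.algebraMapInv ψ) := rfl

theorem T_add (l : ι → V) (α : ι → K) (L : List ι) (ψ ψ' : ExteriorAlgebra k (ι → k)) :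
    T l α L (ψ + ψ') = T l α L ψ + T l α L ψ' := by
  simp [T]

theorem T_sub (l : ι → V) (α : ι → K) (L : List ι) (ψ ψ' : ExteriorAlgebra k (ι → k)) :
    T l α L (ψ - ψ') = T l α L ψ - T l α L ψ' := by
  simp [T]

theorem T_smul_pow (l : ι → V) (α : ι → K) (L : List ι) (n : ℕ)
    (ψ : ExteriorAlgebra k (ι → k)) :
    T l α L ((-1 : k) ^ n • ψ) = (-1) ^ n * T l α L ψ := by
  simp only [T]
  rw [LinearMap.map_smul, Algebra.smul_def]
  simp

theorem T_rec {l : ι → V} (α : ι → K) {L : List ι} (hL : Ind k l L) (hne : L ≠ [])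
    (ψ : ExteriorAlgebra k (ι → k)) :
    T l α L ψ = (al l α (sp (k := k) l L))⁻¹ *
      E L (fun M => T l α M (bd k ι (rho l (sp l L) ψ))) := by
  cases L with
  | nil => exact absurd rfl hne
  | cons x L =>
    have h1 : LinearIndependent k (fun i : Fin (L.length + 1) => l ((x :: L).get i)) :=
      ind_iff.1 hL
    have h2 : Submodule.span k (Set.range (fun i : Fin (L.length + 1) => l ((x :: L).get i)))
        = sp l (x :: L) := span_range_get l (x :: L)
    rw [E_eq_sum]
    show S l α (L.length + 1) (fun i => l ((x :: L).get i)) ψ = _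
    rw [S, if_pos h1, h2]
    simp only [LinearMap.smul_apply, LinearMap.sum_apply, LinearMap.comp_apply, smul_eq_mul,
      AlgHom.toLinearMap_apply]
    congr 1
    refine Finset.sum_congr rfl fun i _ => ?_
    have hlen : ((x :: L).eraseIdx (i : ℕ)).length = L.length := by
      rw [List.length_eraseIdx_of_lt]
      · simp
      · exact i.2
    have h3 : S l α L.length ((fun i : Fin (L.length + 1) => l ((x :: L).get i)) ∘ i.succAbove)
        (bd k ι (rho l (sp l (x :: L)) ψ)) =
        T l α ((x :: L).eraseIdx (i : ℕ)) (bd k ι (rho l (sp l (x :: L)) ψ)) := by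
      rw [T]
      refine S_congr_len l α hlen.symm _ _ (fun j => ?_) _
      simp only [Function.comp_apply, List.get_eq_getElem]
      congr 1
      have hj : (j : ℕ) < ((x :: L).eraseIdx (i : ℕ)).length := by rw [hlen]; exact j.2
      show (x :: L)[(i.succAbove j : ℕ)] = ((x :: L).eraseIdx (i : ℕ))[(j : ℕ)]
      rw [List.getElem_eraseIdx]
      by_cases hji : (j : ℕ) < i
      · rw [dif_pos hji]
        have : ((i.succAbove j : Fin (L.length + 1)) : ℕ) = j := by
          rw [Fin.succAbove_of_castSucc_lt]
          · rfl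
          · exact hji
        simp only [this]
      · rw [dif_neg hji]
        have : ((i.succAbove j : Fin (L.length + 1)) : ℕ) = j + 1 := by
          rw [Fin.succAbove_of_le_castSucc]
          · rfl
          · rw [Fin.le_def]
            simp only [Fin.val_castSucc]
            omega
        simp only [this]
    rw [h3]
    simp

end T

end Pool.Agent.helper43.NDB
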