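import Mathlib
import Pool.Agent.helper67.ND.Defs

/-!
Module B of the proof of the `n/d` conjecture, part 2: facts on exterior algebras.
-/

namespace Pool.Agent.helper43.NDB

open scoped BigOperators

section ext

variable {k : Type} [Field k] {M N : Type} [AddCommGroup M] [Module k M] [AddCommGroup N]
  [Module k N]

/-- Contraction of the exterior algebra by a linear form. -/
noncomputable abbrev ctr (d : Module.Dual k M) : ExteriorAlgebra k M →ₗ[k] ExteriorAlgebra k M :=
  CliffordAlgebra.contractLeft (Q := (0 : QuadraticForm k M)) d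

/-- The grading involution. -/
noncomputable abbrev inv (x : ExteriorAlgebra k M) : ExteriorAlgebra k M :=
  CliffordAlgebra.involute (Q := (0 : QuadraticForm k M)) x

variable (k M) in
/-- The homogeneous part of degree `d`. -/
noncomputable abbrev Gr (d : ℕ) : Submodule k (ExteriorAlgebra k M) :=
  (LinearMap.range (ExteriorAlgebra.ι k : M →ₗ[k] ExteriorAlgebra k M)) ^ d

theorem ctr_ι_mul (d : Module.Dual k M) (v : M) (x : ExteriorAlgebra k M) :
    ctr d (ExteriorAlgebra.ι k v * x) = d v • x - ExteriorAlgebra.ι k v * ctr d x :=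
  CliffordAlgebra.contractLeft_ι_mul d v x

theorem ctr_map (f : M →ₗ[k] N) (d : Module.Dual k N) (x : ExteriorAlgebra k M) :
    ctr d (ExteriorAlgebra.map f x) = ExteriorAlgebra.map f (ctr (d ∘ₗ f) x) := by
  induction x using CliffordAlgebra.left_induction with
  | algebraMap r =>
    have h1 : ExteriorAlgebra.map f (algebraMap k (CliffordAlgebra (0 : QuadraticForm k M)) r) =
        algebraMap k _ r := AlgHom.commutes _ r
    rw [h1, ctr, ctr, CliffordAlgebra.contractLeft_algebraMap,
      CliffordAlgebra.contractLeft_algebraMap, map_zero]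
  | add x y hx hy => simp only [map_add] at *; rw [hx, hy]
  | ι_mul x m hx =>
    have h1 : ExteriorAlgebra.map f (CliffordAlgebra.ι (0 : QuadraticForm k M) m * x) =
        ExteriorAlgebra.ι k (f m) * ExteriorAlgebra.map f x := by
      rw [map_mul]; congr 1
      exact ExteriorAlgebra.map_apply_ι f m
    rw [h1, ctr_ι_mul, hx]
    have h2 : ctr (d ∘ₗ f) (CliffordAlgebra.ι (0 : QuadraticForm k M) m * x) =
      (d (f m)) • x - ExteriorAlgebra.ι k m * ctr (d ∘ₗ f) x := ctr_ι_mul (d ∘ₗ f) m x
    rw [h2, map_sub, map_smul, map_mul, ExteriorAlgebra.map_apply_ι]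

theorem inv_mul' (a b : ExteriorAlgebra k M) : inv (a * b) = inv a * inv b := map_mul _ _ _

theorem inv_ι (v : M) : inv (ExteriorAlgebra.ι k v) = - ExteriorAlgebra.ι k v :=
  CliffordAlgebra.involute_ι v

theorem ι_mul_ι_swap (v w : M) :
    ExteriorAlgebra.ι k v * ExteriorAlgebra.ι k w = - (ExteriorAlgebra.ι k w *
      ExteriorAlgebra.ι k v) :=
  eq_neg_of_add_eq_zero_left (ExteriorAlgebra.ι_add_mul_swap v w)

theorem ι_mul_comm (v : M) (A : ExteriorAlgebra k M) :
    ExteriorAlgebra.ι k v * A = inv A * ExteriorAlgebra.ι k v := by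
  induction A using ExteriorAlgebra.induction with
  | algebraMap r =>
    have : inv (algebraMap k (ExteriorAlgebra k M) r) = algebraMap k _ r := AlgHom.commutes _ r
    rw [this, Algebra.commutes]
  | ι w => rw [inv_ι, ι_mul_ι_swap, neg_mul]
  | mul a b ha hb => rw [inv_mul', ← mul_assoc, ha, mul_assoc, hb, mul_assoc]
  | add a b ha hb =>
    have : inv (a + b) = inv a + inv b := map_add _ _ _
    rw [this, mul_add, add_mul, ha, hb]

theorem ι_mul_mul_ι (v : M) (A : ExteriorAlgebra k M) :
    ExteriorAlgebra.ι k v * A * ExteriorAlgebra.ι k v = 0 := by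
  rw [ι_mul_comm, mul_assoc, ExteriorAlgebra.ι_sq_zero, mul_zero]

theorem ctr_mul (d : Module.Dual k M) (a b : ExteriorAlgebra k M) :
    ctr d (a * b) = ctr d a * b + inv a * ctr d b := by
  induction a using CliffordAlgebra.left_induction with
  | algebraMap r =>
    have h1 : inv (algebraMap k (CliffordAlgebra (0 : QuadraticForm k M)) r) =
      algebraMap k _ r := AlgHom.commutes _ r
    have h2 : ctr d (algebraMap k (CliffordAlgebra (0 : QuadraticForm k M)) r) = 0 :=
      CliffordAlgebra.contractLeft_algebraMap _ _ _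
    have h3 : ctr d (algebraMap k (CliffordAlgebra (0 : QuadraticForm k M)) r * b) =
      algebraMap k _ r * ctr d b := CliffordAlgebra.contractLeft_algebraMap_mul d r b
    rw [h3, h2, h1, zero_mul, zero_add]
  | add x y hx hy =>
    have : inv (x + y) = inv x + inv y := map_add _ _ _
    rw [add_mul, map_add, map_add, hx, hy, this, add_mul, add_mul]
    abel
  | ι_mul x m hx =>
    have h1 : inv (CliffordAlgebra.ι (0 : QuadraticForm k M) m * x) =
      - (ExteriorAlgebra.ι k m * inv x) := by
      rw [inv_mul']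
      have : inv (CliffordAlgebra.ι (0 : QuadraticForm k M) m) = - ExteriorAlgebra.ι k m :=
        inv_ι m
      rw [this, neg_mul]
    have h2 : ctr d (CliffordAlgebra.ι (0 : QuadraticForm k M) m * x) =
      (d m) • x - ExteriorAlgebra.ι k m * ctr d x := ctr_ι_mul d m x
    have h3 : ctr d (CliffordAlgebra.ι (0 : QuadraticForm k M) m * x * b) =
      (d m) • (x * b) - ExteriorAlgebra.ι k m * ctr d (x * b) := by
      rw [mul_assoc]; exact ctr_ι_mul d m (x * b)
    rw [h3, h2, h1, hx, sub_mul, smul_mul_assoc, mul_add]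
    simp only [mul_assoc, neg_mul]
    abel

theorem Gr_mul {a b : ℕ} {x y : ExteriorAlgebra k M} (hx : x ∈ Gr k M a) (hy : y ∈ Gr k M b) :
    x * y ∈ Gr k M (a + b) := by
  rw [Gr, pow_add]
  exact Submodule.mul_mem_mul hx hy

theorem ι_mem_Gr (v : M) : ExteriorAlgebra.ι k v ∈ Gr k M 1 := by
  rw [Gr, pow_one]
  exact ⟨v, rfl⟩

theorem one_mem_Gr : (1 : ExteriorAlgebra k M) ∈ Gr k M 0 := by
  rw [Gr, pow_zero]
  exact Submodule.one_le.1 le_rfl

theorem inv_Gr {d : ℕ} {x : ExteriorAlgebra k M} (hx : x ∈ Gr k M d) :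
    inv x = (-1 : k) ^ d • x := by
  induction hx using Submodule.pow_induction_on_left' with
  | algebraMap r =>
    have : inv (algebraMap k (ExteriorAlgebra k M) r) = algebraMap k _ r := AlgHom.commutes _ r
    rw [this]; simp
  | add x y i hx hy h1 h2 =>
    have : inv (x + y) = inv x + inv y := map_add _ _ _
    rw [this, h1, h2, smul_add]
  | mem_mul m hm i x hx h =>
    obtain ⟨v, rfl⟩ := hm
    rw [inv_mul', inv_ι, h, neg_mul, mul_smul_comm, Nat.succ_eq_add_one, pow_succ]
    simp

theorem ctr_Gr (D : Module.Dual k M) {d : ℕ} {x : ExteriorAlgebra k M} (hx : x ∈ Gr k M d) :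
    (d = 0 → ctr D x = 0) ∧ (∀ e, d = e + 1 → ctr D x ∈ Gr k M e) := by
  induction hx using Submodule.pow_induction_on_left' with
  | algebraMap r =>
    refine ⟨fun _ => CliffordAlgebra.contractLeft_algebraMap _ _ _, fun e he => ?_⟩
    omega
  | add x y i hx hy h1 h2 =>
    refine ⟨fun h => ?_, fun e he => ?_⟩
    · rw [map_add, h1.1 h, h2.1 h, add_zero]
    · rw [map_add]
      exact Submodule.add_mem _ (h1.2 e he) (h2.2 e he)
  | mem_mul m hm i x hx h =>
    obtain ⟨v, rfl⟩ := hm
    refine ⟨fun h => by omega, fun e he => ?_⟩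
    have hie : i = e := by omega
    subst hie
    rw [ctr_ι_mul]
    refine Submodule.sub_mem _ (Submodule.smul_mem _ _ hx) ?_
    rcases Nat.eq_zero_or_pos i with h0 | h0
    · rw [h.1 h0, mul_zero]; exact Submodule.zero_mem _
    · obtain ⟨e, rfl⟩ : ∃ e, i = e + 1 := ⟨i - 1, by omega⟩
      have := Gr_mul (ι_mem_Gr (k := k) v) (h.2 e rfl)
      rwa [Nat.add_comm 1 e] at this

theorem map_Gr (f : M →ₗ[k] N) {d : ℕ} {x : ExteriorAlgebra k M} (hx : x ∈ Gr k M d) :
    ExteriorAlgebra.map f x ∈ Gr k N d := by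
  induction hx using Submodule.pow_induction_on_left' with
  | algebraMap r =>
    rw [AlgHom.commutes]
    exact Submodule.algebraMap_mem r
  | add x y i hx hy h1 h2 =>
    rw [map_add]
    exact Submodule.add_mem _ h1 h2
  | mem_mul m hm i x hx h =>
    obtain ⟨v, rfl⟩ := hm
    rw [map_mul, ExteriorAlgebra.map_apply_ι, Nat.succ_eq_add_one, Nat.add_comm]
    exact Gr_mul (ι_mem_Gr _) h

theorem map_map' {P : Type} [AddCommGroup P] [Module k P] (f : M →ₗ[k] N) (g : N →ₗ[k] P)
    (x : ExteriorAlgebra k M) :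
    ExteriorAlgebra.map g (ExteriorAlgebra.map f x) = ExteriorAlgebra.map (g ∘ₗ f) x := by
  rw [← ExteriorAlgebra.map_comp_map]; rfl

theorem map_zero' (x : ExteriorAlgebra k M) :
    ExteriorAlgebra.map (0 : M →ₗ[k] N) x = algebraMap k _ (ExteriorAlgebra.algebraMapInv x) := by
  induction x using ExteriorAlgebra.induction with
  | algebraMap r =>
    rw [AlgHom.commutes, ExteriorAlgebra.algebraMap_leftInverse]
  | ι v =>
    rw [ExteriorAlgebra.map_apply_ι]
    simp [ExteriorAlgebra.algebraMapInv]
  | mul a b ha hb => rw [map_mul, ha, hb, map_mul, map_mul]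
  | add a b ha hb => rw [map_add, ha, hb, map_add, map_add]

theorem map_eq_zero_of_rank (g : M →ₗ[k] N) (w : Finset N)
    (hg : ∀ x, g x ∈ Submodule.span k (w : Set N)) {d : ℕ} (hd : w.card < d)
    {x : ExteriorAlgebra k M} (hx : x ∈ Gr k M d) : ExteriorAlgebra.map g x = 0 := by
  have h1 : Gr k M d = Submodule.span k (Set.range (ExteriorAlgebra.ιMulti k d)) :=
    (ExteriorAlgebra.ιMulti_span_fixedDegree k d).symm
  rw [h1] at hx
  induction hx using Submodule.span_induction with
  | mem y hy =>
    obtain ⟨v, rfl⟩ := hy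
    rw [ExteriorAlgebra.map_apply_ιMulti]
    apply AlternatingMap.map_linearDependent
    intro hli
    have := linearIndependent_le_span' (g ∘ v) hli (w : Set N) (by
      rintro _ ⟨i, rfl⟩
      exact hg _)
    simp at this
    omega
  | zero => exact map_zero _
  | add y z _ _ hy hz => rw [map_add, hy, hz, add_zero]
  | smul a y _ hy => rw [map_smul, hy, smul_zero]

end ext

end Pool.Agent.helper43.NDB
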