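import Mathlib
import Pool.Agent.helper67.ND.Defs
import Pool.Agent.helper43.NDB.B1
import Pool.Agent.helper43.NDB.B2

/-!
Module B of the proof of the `n/d` conjecture, part 3: the linear maps attached to orderings.
-/

set_option linter.unusedSectionVars false

namespace Pool.Agent.helper43.NDB

open Pool.Agent.helper67.ND

open scoped BigOperators

section fl

variable {k : Type} [Field k] {ι : Type} [Fintype ι] {V : Type} [AddCommGroup V] [Module k V]

open Classical in
/-- The basis vector. -/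
noncomputable def ev (k : Type) [Field k] {ι : Type} (b : ι) : ι → k := Pi.single b 1

/-- The linear map attached to an ordering (the head of the list comes last): it sends `e_y` to
`e_z` where `z` is the member at which `l_y` enters the span. -/
noncomputable def fl (l : ι → V) : List ι → ((ι → k) →ₗ[k] (ι → k))
  | [] => 0
  | b :: L => fl l L +
      (sumDual k ι ∘ₗ (resW l (sp (k := k) l (b :: L)) - resW l (sp l L))).smulRight (ev k b)

open Classical in
theorem sumDual_resW_ev (l : ι → V) (W : Submodule k V) (y : ι) :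
    sumDual k ι (resW l W (ev k y)) = if l y ∈ W then 1 else 0 := by
  simp only [sumDual, resW, ev, LinearMap.sum_apply, LinearMap.proj_apply, LinearMap.coe_mk,
    AddHom.coe_mk]
  rw [Finset.sum_eq_single y]
  · simp
  · intro b _ hb
    simp [hb]
  · simp

theorem sumDual_ev (y : ι) : sumDual k ι (ev k y) = 1 := by
  classical
  simp [sumDual, ev]

theorem resW_ev_mem {l : ι → V} {W : Submodule k V} {y : ι} (h : l y ∈ W) :
    resW l W (ev k y) = ev k y := by
  classical
  ext i
  simp only [resW, ev, LinearMap.coe_mk, AddHom.coe_mk]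
  by_cases hi : i = y
  · subst hi; simp [h]
  · simp [hi]

theorem resW_ev_notMem {l : ι → V} {W : Submodule k V} {y : ι} (h : l y ∉ W) :
    resW l W (ev k y) = 0 := by
  classical
  ext i
  simp only [resW, ev, LinearMap.coe_mk, AddHom.coe_mk, Pi.zero_apply]
  by_cases hi : i = y
  · subst hi; simp [h]
  · simp [hi]

theorem hom_ext' {N : Type} [AddCommGroup N] [Module k N] {f g : (ι → k) →ₗ[k] N}
    (h : ∀ y, f (ev k y) = g (ev k y)) : f = g := by
  classical
  apply LinearMap.pi_ext'
  intro i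
  ext
  simpa [ev] using h i

theorem resW_comp {l : ι → V} {A B : Submodule k V} (h : A ≤ B) :
    (resW l A) ∘ₗ (resW l B) = resW l A := by
  apply hom_ext'
  intro y
  rw [LinearMap.comp_apply]
  by_cases hy : l y ∈ B
  · rw [resW_ev_mem hy]
  · rw [resW_ev_notMem hy, resW_ev_notMem (fun h' => hy (h h')), map_zero]

theorem resW_comp' {l : ι → V} {A B C : Submodule k V}
    (h : ∀ y, l y ∈ C ↔ l y ∈ A ∧ l y ∈ B) :
    (resW l A) ∘ₗ (resW l B) = resW l C := by
  apply hom_ext'
  intro y
  rw [LinearMap.comp_apply]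
  by_cases hy : l y ∈ B
  · rw [resW_ev_mem hy]
    by_cases hy' : l y ∈ A
    · rw [resW_ev_mem hy', resW_ev_mem ((h y).2 ⟨hy', hy⟩)]
    · rw [resW_ev_notMem hy', resW_ev_notMem (fun h' => hy' ((h y).1 h').1)]
  · rw [resW_ev_notMem hy, map_zero, resW_ev_notMem (fun h' => hy ((h y).1 h').2)]

theorem resW_bot {l : ι → V} (hl : ∀ i, l i ≠ 0) : resW l (⊥ : Submodule k V) = 0 := by
  apply hom_ext'
  intro y
  rw [resW_ev_notMem (by simpa using hl y)]; rfl

theorem fl_cons (l : ι → V) (b : ι) (L : List ι) (x : ι → k) :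
    fl l (b :: L) x = fl l L x + (sumDual k ι (resW l (sp (k := k) l (b :: L)) x)
      - sumDual k ι (resW l (sp (k := k) l L) x)) • ev k b := by
  rw [fl]
  simp

/-- (F1) -/
theorem sumDual_fl {l : ι → V} (hl : ∀ i, l i ≠ 0) : ∀ L : List ι,
    (sumDual k ι) ∘ₗ (fl l L) = (sumDual k ι) ∘ₗ (resW l (sp (k := k) l L))
  | [] => by rw [sp_nil, resW_bot hl]; rfl
  | b :: L => by
      ext1 x
      have ih := LinearMap.congr_fun (sumDual_fl hl L) x
      simp only [LinearMap.comp_apply] at ih ⊢
      rw [fl_cons, map_add, ih, map_smul, sumDual_ev]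
      simp

/-- (F2) -/
theorem fl_comp_resW {l : ι → V} : ∀ (L : List ι) {G : Submodule k V}, sp l L ≤ G →
    (fl l L) ∘ₗ (resW l G) = fl l L
  | [], G, _ => by rw [fl]; simp
  | b :: L, G, hG => by
      have hG' : sp l L ≤ G := (sp_mono l (fun j hj => List.mem_cons_of_mem b hj)).trans hG
      ext1 x
      have ih := LinearMap.congr_fun (fl_comp_resW L hG') x
      simp only [LinearMap.comp_apply] at ih ⊢
      rw [fl_cons, fl_cons, ih]
      have h1 := LinearMap.congr_fun (resW_comp (l := l) hG) x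
      have h2 := LinearMap.congr_fun (resW_comp (l := l) hG') x
      simp only [LinearMap.comp_apply] at h1 h2
      rw [h1, h2]

/-- (F3) -/
theorem fl_apply_notMem {l : ι → V} : ∀ (L : List ι) (x : ι → k) (b : ι), b ∉ L →
    fl l L x b = 0
  | [], x, b, _ => rfl
  | c :: L, x, b, hb => by
      rw [fl_cons, Pi.add_apply, fl_apply_notMem L x b (fun h => hb (List.mem_cons_of_mem c h)),
        zero_add]
      have : b ≠ c := fun h => hb (by rw [h]; simp)
      simp [ev, this]

open Classical in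
/-- Erasing one coordinate. -/
noncomputable def ka (k : Type) [Field k] {ι : Type} (b : ι) : (ι → k) →ₗ[k] (ι → k) where
  toFun x := fun i => if i = b then 0 else x i
  map_add' := by intro x y; ext i; simp only [Pi.add_apply]; split_ifs <;> simp
  map_smul' := by intro c x; ext i; simp only [Pi.smul_apply, RingHom.id_apply]; split_ifs <;> simp

theorem ka_ev (b : ι) : ka k b (ev k b) = 0 := by
  ext i
  simp only [ka, ev, LinearMap.coe_mk, AddHom.coe_mk, Pi.zero_apply]
  split_ifs with h
  · rfl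
  · simp [h]

theorem ka_of_zero (b : ι) (x : ι → k) (hx : x b = 0) : ka k b x = x := by
  ext i
  simp only [ka, LinearMap.coe_mk, AddHom.coe_mk]
  split_ifs with h
  · rw [h, hx]
  · rfl

/-- (F4) -/
theorem ka_comp_fl {l : ι → V} {b : ι} {L : List ι} (hb : b ∉ L) :
    (ka k b) ∘ₗ (fl l (b :: L)) = fl l L := by
  ext1 x
  rw [LinearMap.comp_apply, fl_cons, map_add, map_smul, ka_ev, smul_zero, add_zero,
    ka_of_zero _ _ (fl_apply_notMem L x b hb)]

/-- (F5a) -/
theorem fl_ev_notMem {l : ι → V} {y : ι} : ∀ (L : List ι), l y ∉ sp (k := k) l L →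
    fl l L (ev k y) = 0
  | [], _ => rfl
  | b :: L, h => by
      classical
      have h' : l y ∉ sp (k := k) l L :=
        fun hh => h (sp_mono l (fun j hj => List.mem_cons_of_mem b hj) hh)
      rw [fl_cons, fl_ev_notMem L h', sumDual_resW_ev, sumDual_resW_ev, if_neg h, if_neg h']
      simp

/-- (F5b) -/
theorem fl_ev_mem {l : ι → V} (hl : ∀ i, l i ≠ 0) {y : ι} : ∀ (L : List ι),
    l y ∈ sp (k := k) l L →
    ∃ z L2, (z :: L2) <:+ L ∧ l y ∈ sp (k := k) l (z :: L2) ∧ l y ∉ sp (k := k) l L2 ∧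
      fl l L (ev k y) = ev k z
  | [], h => by
      rw [sp_nil, Submodule.mem_bot] at h
      exact absurd h (hl y)
  | b :: L, h => by
      classical
      by_cases h' : l y ∈ sp (k := k) l L
      · obtain ⟨z, L2, h1, h2, h3, h4⟩ := fl_ev_mem hl L h'
        refine ⟨z, L2, h1.trans (List.suffix_cons b L), h2, h3, ?_⟩
        rw [fl_cons, h4, sumDual_resW_ev, sumDual_resW_ev, if_pos h, if_pos h']
        simp
      · refine ⟨b, L, List.suffix_rfl, h, h', ?_⟩
        rw [fl_cons, fl_ev_notMem L h', sumDual_resW_ev, sumDual_resW_ev, if_pos h, if_neg h']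
        simp

/-- The algebra map attached to an ordering. -/
noncomputable def phi (l : ι → V) (L : List ι) :
    ExteriorAlgebra k (ι → k) →ₐ[k] ExteriorAlgebra k (ι → k) :=
  ExteriorAlgebra.map (fl l L)

theorem bd_eq (x : ExteriorAlgebra k (ι → k)) : bd k ι x = ctr (sumDual k ι) x := rfl

theorem phi_rho {l : ι → V} {L : List ι} {G : Submodule k V} (h : sp l L ≤ G)
    (x : ExteriorAlgebra k (ι → k)) : phi l L (rho l G x) = phi l L x := by
  rw [phi, rho, map_map', fl_comp_resW L h]

/-- (N1) -/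
theorem phi_bd_rho {l : ι → V} (hl : ∀ i, l i ≠ 0) {b : ι} {L : List ι}
    (hL : Ind k l (b :: L)) (x : ExteriorAlgebra k (ι → k)) :
    phi l L (bd k ι (rho l (sp l (b :: L)) x)) =
      ExteriorAlgebra.map (ka k b) (bd k ι (phi l (b :: L) x)) := by
  have hb : b ∉ L := (List.nodup_cons.1 hL.1).1
  rw [bd_eq, bd_eq, rho, phi, phi, ctr_map, ctr_map, map_map', map_map',
    fl_comp_resW L (sp_mono l (fun j hj => List.mem_cons_of_mem b hj)), ka_comp_fl hb,
    sumDual_fl hl]

/-- (N2) -/
theorem bd_phi {l : ι → V} (hl : ∀ i, l i ≠ 0) {L : List ι} {x : ExteriorAlgebra k (ι → k)}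
    (hx : rho l (sp l L) x = x) :
    phi l L (bd k ι x) = bd k ι (phi l L x) := by
  have h1 : bd k ι (phi l L x) = ExteriorAlgebra.map (fl l L)
      (ctr ((sumDual k ι) ∘ₗ resW l (sp l L)) x) := by
    rw [bd_eq, phi, ctr_map, sumDual_fl hl]
  have h2 : phi l L (bd k ι (rho l (sp l L) x)) = ExteriorAlgebra.map (fl l L)
      (ctr ((sumDual k ι) ∘ₗ resW l (sp l L)) x) := by
    rw [bd_eq, phi, rho, ctr_map, map_map', fl_comp_resW L le_rfl]
  rw [h1, ← h2, hx]

/-- (N3) -/
theorem rho_bd {l : ι → V} {F : Submodule k V} {x : ExteriorAlgebra k (ι → k)}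
    (hx : rho l F x = x) : rho l F (bd k ι x) = bd k ι x := by
  have h1 : bd k ι x = rho l F (ctr ((sumDual k ι) ∘ₗ resW l F) x) := by
    conv_lhs => rw [← hx, bd_eq, rho, ctr_map]
    rfl
  rw [h1, rho, map_map', resW_comp le_rfl]

end fl

section Zr

variable {k K : Type} [Field k] [Field K] [Algebra k K]
variable {ι : Type} [Fintype ι] {V : Type} [AddCommGroup V] [Module k V]

/-- (Zr) -/
theorem T_zero {l : ι → V} (hl : ∀ i, l i ≠ 0) (α : ι → K) : ∀ (n : ℕ) {L : List ι},
    L.length = n → Ind k l L →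
    ∀ ψ : ExteriorAlgebra k (ι → k), (∀ L' : List ι, L'.Perm L → phi l L' ψ = 0) →
    T l α L ψ = 0 := by
  intro n
  induction n with
  | zero =>
    intro L hL _ ψ h
    obtain rfl : L = [] := List.length_eq_zero_iff.1 hL
    rw [T_nil]
    have h1 := h [] (List.Perm.refl _)
    rw [phi, fl, map_zero', ExteriorAlgebra.algebraMap_eq_zero_iff] at h1
    rw [h1, map_zero]
  | succ n ih =>
    intro L hL hInd ψ h
    have hne : L ≠ [] := by
      rintro rfl
      simp at hL
    rw [T_rec α hInd hne]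
    rw [E_vanish, mul_zero]
    intro b M hM
    have hM' : Ind k l (b :: M) := hInd.perm hM.symm
    refine ih (by have := hM.length_eq; simp at this; omega) hM'.of_cons _ fun L' hL' => ?_
    have h2 : (b :: L').Perm L := (hL'.cons b).trans hM
    rw [← sp_perm l h2, phi_bd_rho hl (hInd.perm h2.symm), h _ h2]
    simp

theorem T_zero' {l : ι → V} (hl : ∀ i, l i ≠ 0) (α : ι → K) {L : List ι} (hL : Ind k l L)
    {ψ : ExteriorAlgebra k (ι → k)} (h : ∀ L' : List ι, L'.Perm L → phi l L' ψ = 0) :
    T l α L ψ = 0 := T_zero hl α L.length rfl hL ψ h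

theorem T_congr {l : ι → V} (hl : ∀ i, l i ≠ 0) (α : ι → K) {L : List ι} (hL : Ind k l L)
    {ψ ψ' : ExteriorAlgebra k (ι → k)}
    (h : ∀ L' : List ι, L'.Perm L → phi l L' ψ = phi l L' ψ') :
    T l α L ψ = T l α L ψ' := by
  rw [← sub_eq_zero, ← T_sub]
  exact T_zero' hl α hL fun L' hL' => by rw [map_sub, h L' hL', sub_self]

/-- The recursion without division, valid also for the empty list. -/
theorem T_rec' {l : ι → V} (hl : ∀ i, l i ≠ 0) (α : ι → K)
    (hα : ∀ W : Submodule k V, (∃ i, l i ∈ W) → al l α W ≠ 0) {L : List ι} (hL : Ind k l L)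
    (ψ : ExteriorAlgebra k (ι → k)) :
    al l α (sp (k := k) l L) * T l α L ψ =
      E L (fun M => T l α M (bd k ι (rho l (sp l L) ψ))) := by
  cases L with
  | nil =>
    classical
    rw [E, sp_nil, al]
    have : ∀ i, ¬ (l i ∈ (⊥ : Submodule k V)) := by
      intro i; simpa using hl i
    simp [this]
  | cons b L =>
    rw [T_rec α hL (by simp), ← mul_assoc, mul_inv_cancel₀, one_mul]
    exact hα _ ⟨b, mem_sp l (by simp)⟩

theorem T_rho {l : ι → V} (hl : ∀ i, l i ≠ 0) (α : ι → K) {L : List ι} (hL : Ind k l L)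
    {G : Submodule k V} (hG : sp l L ≤ G) (ψ : ExteriorAlgebra k (ι → k)) :
    T l α L (rho l G ψ) = T l α L ψ := by
  refine T_congr hl α hL fun L' hL' => ?_
  rw [phi_rho]
  rw [sp_perm l hL']; exact hG

end Zr

end Pool.Agent.helper43.NDB
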