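import Mathlib
import Pool.Agent.helper67.ND.Defs
import Pool.Agent.helper43.NDB.B3

/-!
Module B of the proof of the `n/d` conjecture, part 4: the product formula.
-/

set_option linter.unusedSectionVars false

namespace Pool.Agent.helper43.NDB

open Pool.Agent.helper67.ND

open scoped BigOperators

section PF

variable {k K : Type} [Field k] [Field K] [Algebra k K]
variable {ι : Type} [Fintype ι] {V : Type} [AddCommGroup V] [Module k V]

/-- `F1` and `F2` are independent and every vector of the family lying in their sum lies in one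
of them. -/
structure Dis (l : ι → V) (F1 F2 : Submodule k V) : Prop where
  dj : Disjoint F1 F2
  mem : ∀ j, l j ∈ F1 ⊔ F2 → l j ∈ F1 ∨ l j ∈ F2

theorem bd_Gr {d : ℕ} {x : ExteriorAlgebra k (ι → k)} (hx : x ∈ Gr k (ι → k) (d + 1)) :
    bd k ι x ∈ Gr k (ι → k) d := (ctr_Gr _ hx).2 _ rfl

theorem bd_mul {d : ℕ} {x y : ExteriorAlgebra k (ι → k)} (hx : x ∈ Gr k (ι → k) d) :
    bd k ι (x * y) = bd k ι x * y + (-1 : k) ^ d • (x * bd k ι y) := by
  rw [bd_eq, ctr_mul, inv_Gr hx, smul_mul_assoc]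
  rfl

theorem Dis.symm {l : ι → V} {F1 F2 : Submodule k V} (h : Dis l F1 F2) : Dis l F2 F1 :=
  ⟨h.dj.symm, fun j hj => (h.mem j (by rwa [sup_comm])).symm⟩

theorem mod1 {F1 F2 G1 G2 : Submodule k V} (hd : Disjoint F1 F2) (h1 : G1 ≤ F1) (h2 : G2 ≤ F2)
    {v : V} (hv : v ∈ G1 ⊔ G2) (hv1 : v ∈ F1) : v ∈ G1 := by
  obtain ⟨a, ha, b, hb, rfl⟩ := Submodule.mem_sup.1 hv
  have : b ∈ F1 := by
    have := F1.sub_mem hv1 (h1 ha)
    simpa using this
  have hb0 : b = 0 := by
    have := Submodule.disjoint_def.1 hd b this (h2 hb)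
    exact this
  rw [hb0, add_zero]; exact ha

theorem range_mem_of_ev {N : Type} [AddCommGroup N] [Module k N] (g : (ι → k) →ₗ[k] N)
    (P : Submodule k N) (h : ∀ y, g (ev k y) ∈ P) (x : ι → k) : g x ∈ P := by
  have : P.mkQ ∘ₗ g = 0 := by
    apply hom_ext'
    intro y
    simpa using h y
  have := LinearMap.congr_fun this x
  simpa using this

theorem phi_vanish {l : ι → V} (hl : ∀ i, l i ≠ 0) {F1 F2 : Submodule k V}
    (hD : Disjoint F1 F2) {M1 M2 : List ι} (hInd : Ind k l (M1 ++ M2)) (h1 : sp l M1 ≤ F1)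
    (h2 : sp l M2 ≤ F2) {d : ℕ} {χ : ExteriorAlgebra k (ι → k)} (hχ : χ ∈ Gr k (ι → k) d)
    (hρ : rho l F1 χ = χ) (hd : M1.length < d) {L' : List ι} (hL' : L'.Perm (M1 ++ M2)) :
    phi l L' χ = 0 := by
  classical
  rw [← hρ, phi, rho, map_map']
  refine map_eq_zero_of_rank _ (M1.toFinset.image (ev k)) ?_ (d := d) ?_ hχ
  · intro x
    refine range_mem_of_ev _ _ (fun y => ?_) x
    rw [LinearMap.comp_apply]
    by_cases hy : l y ∈ F1
    · rw [resW_ev_mem hy]
      by_cases hyL : l y ∈ sp (k := k) l L'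
      · obtain ⟨z, L2, hz1, hz2, hz3, hz4⟩ := fl_ev_mem hl L' hyL
        rw [hz4]
        apply Submodule.subset_span
        have hzM : z ∈ M1 := by
          by_contra hzM
          have hy1 : l y ∈ sp (k := k) l M1 := by
            refine mod1 hD h1 h2 ?_ hy
            rw [← sp_append, ← sp_perm l hL']; exact hyL
          have hindL : Ind k l L' := hInd.perm hL'.symm
          have h3 : l y ∈ Submodule.span k (l '' {j | j ∈ z :: L2}) ⊓
              Submodule.span k (l '' {j | j ∈ M1}) := ⟨hz2, hy1⟩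
          have h4 := sp_inf hindL (A := {j | j ∈ z :: L2}) (B := {j | j ∈ M1})
            (fun j hj => hz1.subset hj)
            (fun j hj => hL'.mem_iff.2 (List.mem_append_left _ hj)) h3
          apply hz3
          refine Submodule.span_mono (Set.image_mono ?_) h4
          rintro j ⟨hj1, hj2⟩
          rcases List.mem_cons.1 hj1 with rfl | hj
          · exact absurd hj2 hzM
          · exact hj
        simp only [Finset.coe_image, List.coe_toFinset]
        exact ⟨z, hzM, rfl⟩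
      · rw [fl_ev_notMem L' hyL]; exact Submodule.zero_mem _
    · rw [resW_ev_notMem hy, map_zero]; exact Submodule.zero_mem _
  · exact (Finset.card_image_le.trans (List.toFinset_card_le M1)).trans_lt hd

theorem al_add {l : ι → V} (hl : ∀ i, l i ≠ 0) (α : ι → K) {G1 G2 : Submodule k V}
    (hD : Disjoint G1 G2) (hm : ∀ j, l j ∈ G1 ⊔ G2 → l j ∈ G1 ∨ l j ∈ G2) :
    al l α (G1 ⊔ G2) = al l α G1 + al l α G2 := by
  classical
  rw [al, al, al, ← Finset.sum_add_distrib]
  refine Finset.sum_congr rfl fun i _ => ?_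
  by_cases h1 : l i ∈ G1
  · have h2 : l i ∉ G2 := fun h2 => hl i (Submodule.disjoint_def.1 hD _ h1 h2)
    have h3 : l i ∈ G1 ⊔ G2 := Submodule.mem_sup_left h1
    simp [h1, h2, h3]
  · by_cases h2 : l i ∈ G2
    · have h3 : l i ∈ G1 ⊔ G2 := Submodule.mem_sup_right h2
      simp [h1, h2, h3]
    · have h3 : l i ∉ G1 ⊔ G2 := fun h3 => (hm i h3).elim h1 h2
      simp [h1, h2, h3]

/-- The product formula. -/
theorem T_mul {l : ι → V} (hl : ∀ i, l i ≠ 0) (α : ι → K)
    (hα : ∀ W : Submodule k V, (∃ i, l i ∈ W) → al l α W ≠ 0) {F1 F2 : Submodule k V}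
    (hD : Dis l F1 F2) : ∀ (n : ℕ) {B1 B2 : List ι}, B1.length + B2.length = n →
    Ind k l (B1 ++ B2) → sp l B1 ≤ F1 → sp l B2 ≤ F2 → ∀ {ψ1 ψ2 : ExteriorAlgebra k (ι → k)},
    ψ1 ∈ Gr k (ι → k) B1.length → ψ2 ∈ Gr k (ι → k) B2.length → rho l F1 ψ1 = ψ1 →
    rho l F2 ψ2 = ψ2 → T l α (B1 ++ B2) (ψ1 * ψ2) = T l α B1 ψ1 * T l α B2 ψ2 := by
  intro n
  induction n with
  | zero =>
    intro B1 B2 hn _ _ _ ψ1 ψ2 _ _ _ _
    obtain rfl : B1 = [] := List.length_eq_zero_iff.1 (by omega)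
    obtain rfl : B2 = [] := List.length_eq_zero_iff.1 (by omega)
    rw [List.append_nil, T_nil, T_nil, T_nil, map_mul, map_mul]
  | succ n ih =>
    intro B1 B2 hn hInd h1 h2 ψ1 ψ2 hψ1 hψ2 hρ1 hρ2
    have hI1 : Ind k l B1 := hInd.sublist (List.sublist_append_left B1 B2)
    have hI2 : Ind k l B2 := hInd.sublist (List.sublist_append_right B1 B2)
    set G1 := sp (k := k) l B1 with hG1
    set G2 := sp (k := k) l B2 with hG2
    have hG : sp (k := k) l (B1 ++ B2) = G1 ⊔ G2 := sp_append l B1 B2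
    have hGm1 : ∀ y, l y ∈ G1 ↔ l y ∈ G1 ⊔ G2 ∧ l y ∈ F1 := fun y =>
      ⟨fun h => ⟨Submodule.mem_sup_left h, h1 h⟩, fun h => mod1 hD.dj h1 h2 h.1 h.2⟩
    have hGm2 : ∀ y, l y ∈ G2 ↔ l y ∈ G1 ⊔ G2 ∧ l y ∈ F2 := fun y =>
      ⟨fun h => ⟨Submodule.mem_sup_right h, h2 h⟩, fun h => mod1 hD.dj.symm h2 h1
        (by rw [sup_comm]; exact h.1) h.2⟩
    have hGd : Disjoint G1 G2 := hD.dj.mono h1 h2
    have hGmem : ∀ j, l j ∈ G1 ⊔ G2 → l j ∈ G1 ∨ l j ∈ G2 := by
      intro j hj
      rcases hD.mem j (sup_le_sup h1 h2 hj) with h | h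
      · left; exact (hGm1 j).2 ⟨hj, h⟩
      · right; exact (hGm2 j).2 ⟨hj, h⟩
    have hne : B1 ++ B2 ≠ [] := by
      intro h
      have := congrArg List.length h
      rw [List.length_append, List.length_nil] at this
      omega
    obtain ⟨b0, hb0⟩ := List.exists_mem_of_ne_nil _ hne
    have halG : al l α (G1 ⊔ G2) ≠ 0 := hα _ ⟨b0, by rw [← hG]; exact mem_sp l hb0⟩
    set χ1 := rho l G1 ψ1 with hχ1
    set χ2 := rho l G2 ψ2 with hχ2
    have hχ1' : rho l (G1 ⊔ G2) ψ1 = χ1 := by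
      conv_lhs => rw [← hρ1]
      rw [rho, rho, map_map', resW_comp' hGm1, hχ1, rho]
    have hχ2' : rho l (G1 ⊔ G2) ψ2 = χ2 := by
      conv_lhs => rw [← hρ2]
      rw [rho, rho, map_map', resW_comp' hGm2, hχ2, rho]
    have hgr1 : χ1 ∈ Gr k (ι → k) B1.length := map_Gr _ hψ1
    have hgr2 : χ2 ∈ Gr k (ι → k) B2.length := map_Gr _ hψ2
    have hF1 : rho l F1 χ1 = χ1 := by
      rw [hχ1, rho, rho, map_map', resW_comp' (C := G1) (fun y => ⟨fun h => ⟨h1 h, h⟩,
        fun h => h.2⟩)]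
    have hF2 : rho l F2 χ2 = χ2 := by
      rw [hχ2, rho, rho, map_map', resW_comp' (C := G2) (fun y => ⟨fun h => ⟨h2 h, h⟩,
        fun h => h.2⟩)]
    have hbd : bd k ι (rho l (sp l (B1 ++ B2)) (ψ1 * ψ2)) =
        bd k ι χ1 * χ2 + (-1 : k) ^ B1.length • (χ1 * bd k ι χ2) := by
      rw [hG, map_mul, hχ1', hχ2', bd_mul hgr1]
    have hmain : al l α (G1 ⊔ G2) * T l α (B1 ++ B2) (ψ1 * ψ2) =
        al l α (G1 ⊔ G2) * (T l α B1 ψ1 * T l α B2 ψ2) := by
      have hT1 : T l α B1 χ1 = T l α B1 ψ1 := T_rho hl α hI1 le_rfl ψ1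
      have hT2 : T l α B2 χ2 = T l α B2 ψ2 := T_rho hl α hI2 le_rfl ψ2
      have hr := T_rec' hl α hα hInd (ψ1 * ψ2)
      rw [hG] at hr
      rw [hr, ← hG, hbd, E_append]
      have e1 : E B1 (fun M => T l α (M ++ B2)
          (bd k ι χ1 * χ2 + (-1 : k) ^ B1.length • (χ1 * bd k ι χ2))) =
          T l α B2 ψ2 * (al l α G1 * T l α B1 ψ1) := by
        rw [hG1, T_rec' hl α hα hI1, ← E_mul]
        refine E_congr _ _ _ fun b M hM => ?_
        have hlen : M.length + 1 = B1.length := by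
          have := hM.length_eq; simpa using this
        have hIM : Ind k l (M ++ B2) := by
          have : (b :: (M ++ B2)).Perm (B1 ++ B2) := by
            rw [← List.cons_append]; exact hM.append_right B2
          exact (hInd.perm this.symm).of_cons
        have hspM : sp l M ≤ F1 := by
          refine le_trans (sp_mono l ?_) h1
          intro j hj
          exact hM.mem_iff.1 (List.mem_cons_of_mem b hj)
        rw [T_add, T_smul_pow]
        have hz : T l α (M ++ B2) (χ1 * bd k ι χ2) = 0 := by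
          refine T_zero' hl α hIM fun L' hL' => ?_
          rw [map_mul, phi_vanish hl hD.dj hIM hspM h2 hgr1 hF1 (by omega) hL', zero_mul]
        rw [hz, mul_zero, add_zero]
        rw [ih (by omega) hIM hspM h2 (bd_Gr (by rw [hlen]; exact hgr1)) hgr2 (rho_bd hF1) hF2, hT2,
          mul_comm]
      have e2 : E B2 (fun M => T l α (B1 ++ M)
          (bd k ι χ1 * χ2 + (-1 : k) ^ B1.length • (χ1 * bd k ι χ2))) =
          ((-1) ^ B1.length * T l α B1 ψ1) * (al l α G2 * T l α B2 ψ2) := by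
        rw [hG2, T_rec' hl α hα hI2, ← E_mul]
        refine E_congr _ _ _ fun b M hM => ?_
        have hlen : M.length + 1 = B2.length := by
          have := hM.length_eq; simpa using this
        have hIM : Ind k l (B1 ++ M) := by
          have : (b :: (B1 ++ M)).Perm (B1 ++ B2) :=
            (List.perm_middle (a := b) (l₁ := B1) (l₂ := M)).symm.trans (hM.append_left B1)
          exact (hInd.perm this.symm).of_cons
        have hspM : sp l M ≤ F2 := by
          refine le_trans (sp_mono l ?_) h2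
          intro j hj
          exact hM.mem_iff.1 (List.mem_cons_of_mem b hj)
        rw [T_add, T_smul_pow]
        have hz : T l α (B1 ++ M) (bd k ι χ1 * χ2) = 0 := by
          refine T_zero' hl α hIM fun L' hL' => ?_
          rw [map_mul, phi_vanish hl hD.dj.symm (hIM.perm List.perm_append_comm) hspM h1 hgr2 hF2
            (by omega) (hL'.trans List.perm_append_comm), mul_zero]
        rw [hz, zero_add]
        rw [ih (by omega) hIM h1 hspM hgr1 (bd_Gr (by rw [hlen]; exact hgr2)) hF1 (rho_bd hF2), hT1]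
        ring
      rw [e1, e2, hG, al_add hl α hGd hGmem]
      have hs : ((-1 : K) ^ B1.length) * (-1) ^ B1.length = 1 := by
        rw [← mul_pow]; simp
      linear_combination (T l α B1 ψ1 * (al l α G2 * T l α B2 ψ2)) * hs
    exact mul_left_cancel₀ halG hmain

end PF

end Pool.Agent.helper43.NDB
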