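import Mathlib
import Pool.Agent.helper67.ND.Defs
import Pool.Agent.helper43.NDB.B4

/-!
Module B of the proof of the `n/d` conjecture, part 5: separations of flats.
-/

set_option linter.unusedSectionVars false

namespace Pool.Agent.helper43.NDB

open Pool.Agent.helper67.ND

open scoped BigOperators

section Sep

variable {k : Type} [Field k]
variable {ι : Type} [Fintype ι] {V : Type} [AddCommGroup V] [Module k V]

/-- A separation of a flat. -/
structure Sep (l : ι → V) (F A B : Submodule k V) : Prop where
  sup : A ⊔ B = F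
  dj : Disjoint A B
  mem : ∀ j, l j ∈ F → l j ∈ A ∨ l j ∈ B

/-- The flat is spanned by the vectors of the family which it contains. -/
def Spn (l : ι → V) (F : Submodule k V) : Prop := F ≤ Submodule.span k (l '' {j | l j ∈ F})

/-- The vector `v` has nonzero components for all separations. -/
def Full (l : ι → V) (F : Submodule k V) (v : V) : Prop :=
  ∀ A B, Sep l F A B → v ∈ B → A = ⊥

theorem Sep.symm {l : ι → V} {F A B : Submodule k V} (h : Sep l F A B) : Sep l F B A :=
  ⟨by rw [sup_comm]; exact h.sup, h.dj.symm, fun j hj => (h.mem j hj).symm⟩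

theorem Sep.le_left {l : ι → V} {F A B : Submodule k V} (h : Sep l F A B) : A ≤ F :=
  h.sup ▸ le_sup_left

theorem Sep.le_right {l : ι → V} {F A B : Submodule k V} (h : Sep l F A B) : B ≤ F :=
  h.sup ▸ le_sup_right

theorem Sep.toDis {l : ι → V} {F A B : Submodule k V} (h : Sep l F A B) : Dis l A B :=
  ⟨h.dj, fun j hj => h.mem j (h.sup ▸ hj)⟩

/-- (S2) -/
theorem Sep.trans {l : ι → V} {F A B C D : Submodule k V} (h : Sep l F A B) (h' : Sep l B C D) :
    Sep l F (A ⊔ C) D := by
  refine ⟨?_, ?_, ?_⟩
  · rw [sup_assoc, h'.sup, h.sup]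
  · rw [Submodule.disjoint_def]
    intro v hv hvD
    obtain ⟨a, ha, c, hc, rfl⟩ := Submodule.mem_sup.1 hv
    have haB : a ∈ B := by
      have h1 : a + c ∈ B := h'.le_right hvD
      have h2 : c ∈ B := h'.le_left hc
      have := B.sub_mem h1 h2
      simpa using this
    have ha0 : a = 0 := Submodule.disjoint_def.1 h.dj a ha haB
    rw [ha0, zero_add] at hvD ⊢
    exact Submodule.disjoint_def.1 h'.dj c hc hvD
  · intro j hj
    rcases h.mem j hj with h1 | h1
    · left; exact Submodule.mem_sup_left h1
    · rcases h'.mem j h1 with h2 | h2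
      · left; exact Submodule.mem_sup_right h2
      · right; exact h2

theorem Sep.bot_right (l : ι → V) (F : Submodule k V) : Sep l F F ⊥ :=
  ⟨by simp, disjoint_bot_right, fun _ hj => Or.inl hj⟩

theorem Sep.bot_left (l : ι → V) (F : Submodule k V) : Sep l F ⊥ F := (Sep.bot_right l F).symm

/-- (S3) -/
theorem Sep.spn {l : ι → V} {F A B : Submodule k V} (h : Sep l F A B) (hF : Spn l F) :
    Spn l A := by
  intro v hv
  have h1 := hF (h.le_left hv)
  have h2 : Submodule.span k (l '' {j | l j ∈ F}) ≤ Submodule.span k (l '' {j | l j ∈ A}) ⊔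
      Submodule.span k (l '' {j | l j ∈ B}) := by
    rw [Submodule.span_le]
    rintro _ ⟨j, hj, rfl⟩
    rcases h.mem j hj with h' | h'
    · exact Submodule.mem_sup_left (Submodule.subset_span ⟨j, h', rfl⟩)
    · exact Submodule.mem_sup_right (Submodule.subset_span ⟨j, h', rfl⟩)
  refine mod1 h.dj (G1 := Submodule.span k (l '' {j | l j ∈ A}))
    (G2 := Submodule.span k (l '' {j | l j ∈ B})) ?_ ?_ (h2 h1) hv
  · rw [Submodule.span_le]
    rintro _ ⟨j, hj, rfl⟩
    exact hj
  · rw [Submodule.span_le]
    rintro _ ⟨j, hj, rfl⟩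
    exact hj

variable [FiniteDimensional k V]

theorem Sep.finrank {l : ι → V} {F A B : Submodule k V} (h : Sep l F A B) :
    Module.finrank k A + Module.finrank k B = Module.finrank k F := by
  have := Submodule.finrank_sup_add_finrank_inf_eq A B
  rw [h.sup, h.dj.eq_bot, finrank_bot] at this
  omega

theorem finrank_pos' {A : Submodule k V} (h : A ≠ ⊥) : 0 < Module.finrank k A := by
  rcases Nat.eq_zero_or_pos (Module.finrank k A) with h0 | h0
  · exact absurd (Submodule.finrank_eq_zero.1 h0) h
  · exact h0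

/-- (S5) -/
theorem exists_full (l : ι → V) : ∀ (n : ℕ) (W : Submodule k V), Module.finrank k W ≤ n →
    ∀ w ∈ W, ∃ W' U, Sep l W W' U ∧ w ∈ U ∧ Full l U w := by
  intro n
  induction n with
  | zero =>
    intro W hW w hw
    refine ⟨⊥, W, Sep.bot_left l W, hw, ?_⟩
    intro A B hS _
    have h0 : W = ⊥ := Submodule.finrank_eq_zero.1 (by omega)
    have := hS.le_left
    rw [h0, le_bot_iff] at this
    exact this
  | succ n ih =>
    intro W hW w hw
    by_cases hf : Full l W w
    · exact ⟨⊥, W, Sep.bot_left l W, hw, hf⟩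
    · rw [Full] at hf
      push Not at hf
      obtain ⟨A, B, hS, hwB, hA⟩ := hf
      have h1 := hS.finrank
      have h2 := finrank_pos' hA
      obtain ⟨W', U, hS', hwU, hU⟩ := ih B (by omega) w hwB
      exact ⟨A ⊔ W', U, hS.trans hS', hwU, hU⟩

theorem Full.left {l : ι → V} {F A B : Submodule k V} (h : Sep l F A B) {v1 v2 : V}
    (hv1 : v1 ∈ A) (hv2 : v2 ∈ B) (hf : Full l F (v1 + v2)) : Full l A v1 := by
  intro A1 A2 hS hv
  have h1 : Sep l F (B ⊔ A2) A1 := h.symm.trans hS.symm
  refine hf A1 (B ⊔ A2) h1.symm ?_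
  exact Submodule.add_mem _ (Submodule.mem_sup_right hv) (Submodule.mem_sup_left hv2)

theorem Full.right {l : ι → V} {F A B : Submodule k V} (h : Sep l F A B) {v1 v2 : V}
    (hv1 : v1 ∈ A) (hv2 : v2 ∈ B) (hf : Full l F (v1 + v2)) : Full l B v2 :=
  Full.left h.symm hv2 hv1 (by rwa [add_comm])

/-- A hyperplane spanned by members and avoiding a given vector. -/
theorem exists_hyper {l : ι → V} {F : Submodule k V} (hF : Spn l F) {v : V}
    (hv : v ∈ F) (hv0 : v ≠ 0) : ∃ (x : ι) (H : Submodule k V), l x ∈ F ∧ l x ∉ H ∧ H ≤ F ∧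
      Submodule.span k {l x} ⊔ H = F ∧ Spn l H ∧ v ∉ H := by
  classical
  obtain ⟨b, hb1, -, hb2, hb3⟩ := exists_linearIndepOn_extension (K := k) (v := l)
    (s := (∅ : Set ι)) (t := {j | l j ∈ F}) (by simp) (Set.empty_subset _)
  have hbF : Submodule.span k (l '' b) = F := by
    apply le_antisymm
    · rw [Submodule.span_le]
      rintro _ ⟨j, hj, rfl⟩
      exact hb1 hj
    · refine hF.trans ?_
      rw [Submodule.span_le]
      exact hb2
  have hvb : v ∈ Submodule.span k (l '' b) := by rw [hbF]; exact hv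
  rw [Finsupp.mem_span_image_iff_linearCombination] at hvb
  obtain ⟨f, hf, hfv⟩ := hvb
  have hf0 : f ≠ 0 := by
    rintro rfl
    rw [map_zero] at hfv
    exact hv0 hfv.symm
  obtain ⟨x, hx⟩ := Finsupp.support_nonempty_iff.2 hf0
  have hfx : f x ≠ 0 := Finsupp.mem_support_iff.1 hx
  have hxb : x ∈ b := by
    rw [Finsupp.mem_supported] at hf
    exact hf hx
  set H := Submodule.span k (l '' (b \ {x})) with hH
  have hins : b = insert x (b \ {x}) := by
    rw [Set.insert_sdiff_singleton, Set.insert_eq_of_mem hxb]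
  have hxH : l x ∉ H := by
    have h3 := hb3
    rw [hins, linearIndepOn_insert (by simp)] at h3
    exact h3.2
  have hspan : Submodule.span k {l x} ⊔ H = F := by
    rw [← hbF, hH, ← Submodule.span_union, ← Set.image_singleton, ← Set.image_union]
    congr 2
    rw [Set.union_sdiff_self, Set.union_eq_self_of_subset_left (by simpa using hxb)]
  refine ⟨x, H, hb1 hxb, hxH, ?_, hspan, ?_, ?_⟩
  · rw [← hspan]; exact le_sup_right
  · rw [Spn]
    conv_lhs => rw [hH]
    refine Submodule.span_mono (Set.image_mono ?_)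
    intro j hj
    exact Submodule.subset_span ⟨j, hj, rfl⟩
  · intro hvH
    apply hxH
    have h4 : Finsupp.linearCombination k l (f.erase x) ∈ H := by
      rw [hH, Finsupp.mem_span_image_iff_linearCombination]
      refine ⟨f.erase x, ?_, rfl⟩
      rw [Finsupp.mem_supported] at hf ⊢
      intro j hj
      have hj' := Finset.mem_coe.1 hj
      rw [Finsupp.support_erase, Finset.mem_erase] at hj'
      exact ⟨hf hj'.2, hj'.1⟩
    have h5 : v = f x • l x + Finsupp.linearCombination k l (f.erase x) := by
      rw [← hfv]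
      conv_lhs => rw [← Finsupp.single_add_erase x f]
      rw [map_add, Finsupp.linearCombination_single]
    have h6 : f x • l x ∈ H := by
      have := H.sub_mem hvH h4
      rw [h5] at this
      simpa using this
    exact (Submodule.smul_mem_iff _ hfx).1 h6

end Sep

end Pool.Agent.helper43.NDB
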