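import Mathlib
import Pool.Agent.helper67.ND.Defs
import Pool.Agent.helper43.NDB.B5

/-!
Module B of the proof of the `n/d` conjecture, part 6: the elements attached to flats.
-/

set_option linter.unusedSectionVars false
set_option linter.unusedVariables false

namespace Pool.Agent.helper43.NDB

open Pool.Agent.helper67.ND

open scoped BigOperators

section Pk

variable {k : Type} [Field k]
variable {ι : Type} [Fintype ι] {V : Type} [AddCommGroup V] [Module k V]

/-- The generator attached to an index. -/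
noncomputable abbrev ge (k : Type) [Field k] {ι : Type} [Fintype ι] (b : ι) :
    ExteriorAlgebra k (ι → k) := ExteriorAlgebra.ι k (ev k b)

/-- Evaluation of an element along a list gives the inverse of an element of the ring. -/
def Evl (K : Type) [Field K] [Algebra k K] (l : ι → V) (B : List ι)
    (Ψ : ExteriorAlgebra k (ι → k)) : Prop :=
  ∀ (R : Subring K) (α : ι → K), (∀ i, α i ∈ R) →
    (∀ W : Submodule k V, (∃ i, l i ∈ W) → al l α W ≠ 0) → ∃ u ∈ R, u * T l α B Ψ = 1

/-- The properties of the element attached to a flat. -/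
structure Pk (K : Type) [Field K] [Algebra k K] (l : ι → V) (F : Submodule k V) (v : V)
    (B : List ι) (Ψ : ExteriorAlgebra k (ι → k)) : Prop where
  ind : Ind k l B
  spB : sp l B = F
  deg : Ψ ∈ Gr k (ι → k) B.length
  supp : rho l F Ψ = Ψ
  pb : ∀ L, Ind k l L → (∀ b ∈ B, b ∈ L) → ∀ b ∈ B, ge k b * phi l L Ψ = 0
  q : ∀ L, Ind k l L → (∀ b ∈ B, b ∈ L) → phi l L Ψ ≠ 0 → ∀ L2, L2 <:+ L →
    v ∈ sp (k := k) l L2 → F ≤ sp l L2
  evl : Evl K l B Ψ

theorem rho_mono {l : ι → V} {A B : Submodule k V} (h : A ≤ B) {x : ExteriorAlgebra k (ι → k)}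
    (hx : rho l A x = x) : rho l B x = x := by
  conv_lhs => rw [← hx]
  rw [rho, rho, map_map', resW_comp' (C := A) (fun y => ⟨fun h' => ⟨h h', h'⟩, fun h' => h'.2⟩)]
  exact hx

theorem rho_ge {l : ι → V} {F : Submodule k V} {x : ι} (hx : l x ∈ F) :
    rho l F (ge k x) = ge k x := by
  rw [rho, ExteriorAlgebra.map_apply_ι, resW_ev_mem hx]

theorem ind_append {l : ι → V} (hl : ∀ i, l i ≠ 0) {A B : List ι} (hA : Ind k l A)
    (hB : Ind k l B) (hd : Disjoint (sp (k := k) l A) (sp l B)) : Ind k l (A ++ B) := by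
  refine ⟨?_, ?_⟩
  · rw [List.nodup_append']
    refine ⟨hA.1, hB.1, ?_⟩
    intro j h1 h2
    exact hl j (Submodule.disjoint_def.1 hd _ (mem_sp l h1) (mem_sp l h2))
  · have : {j | j ∈ A ++ B} = {j | j ∈ A} ∪ {j | j ∈ B} := by
      ext j; simp
    rw [this]
    exact hA.2.union hB.2 hd

/-- intersection of a span of a sublist with the span of a suffix. -/
theorem mem_inter {l : ι → V} {L A B C : List ι} (hL : Ind k l L) (hA : ∀ j ∈ A, j ∈ L)
    (hB : ∀ j ∈ B, j ∈ L) (hC : ∀ j ∈ A, j ∈ B → j ∈ C) {v : V} (h1 : v ∈ sp (k := k) l A)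
    (h2 : v ∈ sp (k := k) l B) : v ∈ sp (k := k) l C := by
  have h3 := sp_inf hL (A := {j | j ∈ A}) (B := {j | j ∈ B}) hA hB ⟨h1, h2⟩
  refine Submodule.span_mono (Set.image_mono ?_) h3
  rintro j ⟨hj1, hj2⟩
  exact hC j hj1 hj2

/-- A member of the ordering is fixed. -/
theorem fl_self {l : ι → V} (hl : ∀ i, l i ≠ 0) {L : List ι} (hL : Ind k l L) {x : ι}
    (hx : x ∈ L) : fl l L (ev k x) = ev k x := by
  obtain ⟨z, L2, h1, h2, h3, h4⟩ := fl_ev_mem hl L (mem_sp (k := k) l hx)
  rw [h4]
  by_contra hne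
  have hzx : z ≠ x := fun h => hne (by rw [h])
  apply h3
  refine mem_inter hL (A := z :: L2) (B := [x]) (fun j hj => h1.subset hj) ?_ ?_ h2
    (mem_sp l (by simp))
  · intro j hj
    rw [List.mem_singleton] at hj
    rw [hj]; exact hx
  · intro j hj1 hj2
    rw [List.mem_singleton] at hj2
    subst hj2
    rcases List.mem_cons.1 hj1 with h | h
    · exact absurd h.symm hzx
    · exact h

theorem phi_ge_self {l : ι → V} (hl : ∀ i, l i ≠ 0) {L : List ι} (hL : Ind k l L) {x : ι}
    (hx : x ∈ L) : phi l L (ge k x) = ge k x := by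
  rw [phi, ExteriorAlgebra.map_apply_ι, fl_self hl hL hx]

variable {K : Type} [Field K] [Algebra k K]

/-- The zero flat. -/
theorem pk_bot (l : ι → V) (v : V) : Pk K l (⊥ : Submodule k V) v [] 1 where
  ind := ind_nil l
  spB := sp_nil l
  deg := one_mem_Gr
  supp := map_one _
  pb := by intro _ _ _ b hb; simp at hb
  q := by intro _ _ _ _ _ _ _; exact bot_le
  evl := by
    intro R α _ _
    refine ⟨1, R.one_mem, ?_⟩
    rw [T_nil]; simp

/-- Products. -/
theorem pk_mul {l : ι → V} (hl : ∀ i, l i ≠ 0) {F A B : Submodule k V} (hS : Sep l F A B)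
    {v1 v2 : V} (hv1 : v1 ∈ A) (hv2 : v2 ∈ B) {B1 B2 : List ι}
    {Ψ1 Ψ2 : ExteriorAlgebra k (ι → k)} (h1 : Pk K l A v1 B1 Ψ1) (h2 : Pk K l B v2 B2 Ψ2) :
    Pk K l F (v1 + v2) (B1 ++ B2) (Ψ1 * Ψ2) where
  ind := ind_append hl h1.ind h2.ind (by rw [h1.spB, h2.spB]; exact hS.dj)
  spB := by rw [sp_append, h1.spB, h2.spB, hS.sup]
  deg := by rw [List.length_append]; exact Gr_mul h1.deg h2.deg
  supp := by
    rw [map_mul, rho_mono hS.le_left h1.supp, rho_mono hS.le_right h2.supp]
  pb := by
    intro L hL hsub b hb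
    rw [map_mul]
    have hs1 : ∀ b ∈ B1, b ∈ L := fun b hb => hsub b (List.mem_append_left _ hb)
    have hs2 : ∀ b ∈ B2, b ∈ L := fun b hb => hsub b (List.mem_append_right _ hb)
    rcases List.mem_append.1 hb with h | h
    · rw [← mul_assoc, h1.pb L hL hs1 b h, zero_mul]
    · rw [← mul_assoc, ι_mul_comm, mul_assoc, h2.pb L hL hs2 b h, mul_zero]
  q := by
    intro L hL hsub hne L2 hL2 hv
    have hs1 : ∀ b ∈ B1, b ∈ L := fun b hb => hsub b (List.mem_append_left _ hb)
    have hs2 : ∀ b ∈ B2, b ∈ L := fun b hb => hsub b (List.mem_append_right _ hb)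
    rw [map_mul] at hne
    have hn1 : phi l L Ψ1 ≠ 0 := fun h => hne (by rw [h, zero_mul])
    have hn2 : phi l L Ψ2 ≠ 0 := fun h => hne (by rw [h, mul_zero])
    classical
    have hvB : v1 + v2 ∈ sp (k := k) l (B1 ++ B2) := by
      rw [sp_append, h1.spB, h2.spB]
      exact Submodule.add_mem _ (Submodule.mem_sup_left hv1) (Submodule.mem_sup_right hv2)
    have h3 : v1 + v2 ∈ sp (k := k) l (B1.filter (· ∈ L2) ++ B2.filter (· ∈ L2)) := by
      refine mem_inter hL (A := L2) (B := B1 ++ B2) (fun j hj => hL2.subset hj) hsub ?_ hv hvB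
      intro j hj1 hj2
      rcases List.mem_append.1 hj2 with h | h
      · exact List.mem_append_left _ (List.mem_filter.2 ⟨h, by simpa using hj1⟩)
      · exact List.mem_append_right _ (List.mem_filter.2 ⟨h, by simpa using hj1⟩)
    rw [sp_append] at h3
    obtain ⟨w1, hw1, w2, hw2, hw⟩ := Submodule.mem_sup.1 h3
    have hw1A : w1 ∈ A := by
      rw [← h1.spB]
      exact sp_mono l (fun j hj => (List.mem_filter.1 hj).1) hw1
    have hw2B : w2 ∈ B := by
      rw [← h2.spB]
      exact sp_mono l (fun j hj => (List.mem_filter.1 hj).1) hw2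
    have h4 : v1 = w1 := by
      have h5 : v1 - w1 = w2 - v2 := by
        rw [sub_eq_sub_iff_add_eq_add, ← hw, add_comm]
      have h6 : v1 - w1 = 0 := by
        refine Submodule.disjoint_def.1 hS.dj _ (A.sub_mem hv1 hw1A) ?_
        rw [h5]; exact B.sub_mem hw2B hv2
      exact sub_eq_zero.1 h6
    have h5 : v2 = w2 := by
      rw [h4] at hw
      exact (add_left_cancel hw).symm
    have hv1' : v1 ∈ sp (k := k) l L2 := by
      rw [h4]
      exact sp_mono l (fun j hj => by simpa using (List.mem_filter.1 hj).2) hw1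
    have hv2' : v2 ∈ sp (k := k) l L2 := by
      rw [h5]
      exact sp_mono l (fun j hj => by simpa using (List.mem_filter.1 hj).2) hw2
    rw [← hS.sup]
    exact sup_le (h1.q L hL hs1 hn1 L2 hL2 hv1') (h2.q L hL hs2 hn2 L2 hL2 hv2')
  evl := by
    intro R α hR hα
    obtain ⟨u1, hu1, hu1'⟩ := h1.evl R α hR hα
    obtain ⟨u2, hu2, hu2'⟩ := h2.evl R α hR hα
    refine ⟨u1 * u2, R.mul_mem hu1 hu2, ?_⟩
    rw [T_mul hl α hα hS.toDis _ rfl
      (ind_append hl h1.ind h2.ind (by rw [h1.spB, h2.spB]; exact hS.dj))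
      h1.spB.le h2.spB.le h1.deg h2.deg h1.supp h2.supp]
    linear_combination u2 * T l α B2 Ψ2 * hu1' + hu2'

end Pk

section Stg

variable {k : Type} [Field k]
variable {ι : Type} [Fintype ι] {V : Type} [AddCommGroup V] [Module k V]

/-- The intermediate stages of the construction for a connected flat. -/
structure Stg (K : Type) [Field K] [Algebra k K] (l : ι → V) (F H : Submodule k V) (x : ι)
    (S W : Submodule k V) (B : List ι) (Q C : ExteriorAlgebra k (ι → k)) : Prop where
  sep : Sep l H S W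
  ind : Ind k l B
  spB : sp l B = S
  degQ : Q ∈ Gr k (ι → k) B.length
  degC : C ∈ Gr k (ι → k) B.length
  supQ : rho l F Q = Q
  supC : rho l S C = C
  i : ∀ L', Ind k l (x :: L') → (∀ b ∈ B, b ∈ L') →
    ge k x * phi l (x :: L') Q = ge k x * phi l (x :: L') C
  ii : ∀ L, Ind k l L → (∀ b ∈ x :: B, b ∈ L) → ge k x * phi l L Q ≠ 0 →
    ∃ L2, (x :: L2) <:+ L ∧ S ≤ sp l L2
  iii : ∀ L, Ind k l L → (∀ b ∈ x :: B, b ∈ L) → ∀ b ∈ x :: B,
    ge k b * (ge k x * phi l L Q) = 0
  evl : Evl K l B C

variable {K : Type} [Field K] [Algebra k K]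

theorem stg_start (l : ι → V) (F H : Submodule k V) (x : ι) :
    Stg K l F H x (⊥ : Submodule k V) H [] 1 1 where
  sep := Sep.bot_left l H
  ind := ind_nil l
  spB := sp_nil l
  degQ := one_mem_Gr
  degC := one_mem_Gr
  supQ := map_one _
  supC := map_one _
  i := by intro _ _ _; rfl
  ii := by
    intro L _ hx _
    obtain ⟨s, t, rfl⟩ := List.append_of_mem (hx x (by simp))
    exact ⟨t, ⟨s, rfl⟩, bot_le⟩
  iii := by
    intro L _ _ b hb
    simp only [List.mem_singleton] at hb
    subst hb
    rw [← mul_assoc, ExteriorAlgebra.ι_sq_zero, zero_mul]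
  evl := (pk_bot (K := K) l (0 : V)).evl

theorem bd_ge_mul (y : ι) (χ : ExteriorAlgebra k (ι → k)) :
    bd k ι (ge k y * χ) = χ - ge k y * bd k ι χ := by
  rw [bd_eq, ctr_ι_mul, sumDual_ev, one_smul]; rfl

theorem ge_mul_mul_ge (x : ι) (A B : ExteriorAlgebra k (ι → k)) :
    ge k x * A * (ge k x * B) = 0 := by
  rw [← mul_assoc, ι_mul_mul_ι, zero_mul]

theorem nodup_of_suffix {x : ι} {L L2 : List ι} (h : L.Nodup) (h2 : (x :: L2) <:+ L) :
    x ∉ L2 := (List.nodup_cons.1 (h.sublist h2.sublist)).1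

/-- The stage step. -/
theorem stg_step {l : ι → V} (hl : ∀ i, l i ≠ 0) {F H S W U W' : Submodule k V} {x y : ι}
    (hxF : l x ∈ F) (hxH : l x ∉ H) (hHF : H ≤ F) {B : List ι}
    {Q C : ExteriorAlgebra k (ι → k)} (h : Stg K l F H x S W B Q C)
    (hS : Sep l W U W') {a : k} {s w : V} (hs : s ∈ S) (hw : w ∈ U) (ha : a ≠ 0)
    (hy : l y = a • l x + s + w) {BU : List ι} {ΨU : ExteriorAlgebra k (ι → k)}
    (hU : Pk K l U w BU ΨU) :
    Stg K l F H x (S ⊔ U) W' (B ++ BU) (Q * bd k ι (ge k y * ΨU)) (C * ΨU) := by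
  have hUW : U ≤ W := hS.le_left
  have hWH : W ≤ H := h.sep.le_right
  have hSH : S ≤ H := h.sep.le_left
  have hdj : Disjoint S U := h.sep.dj.mono le_rfl hUW
  have hyF : l y ∈ F := by
    rw [hy]
    exact F.add_mem (F.add_mem (F.smul_mem _ hxF) (hHF (hSH hs))) (hHF (hWH (hUW hw)))
  have hDis : Dis l S U := by
    refine ⟨hdj, fun j hj => ?_⟩
    have hjH : l j ∈ H := sup_le hSH (hUW.trans hWH) hj
    rcases h.sep.mem j hjH with h1 | h1
    · exact Or.inl h1
    · right
      exact mod1 h.sep.dj.symm hUW le_rfl (by rw [sup_comm]; exact hj) h1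
  have hindBU : Ind k l (B ++ BU) :=
    ind_append hl h.ind hU.ind (by rw [h.spB, hU.spB]; exact hdj)
  have hΨF : rho l F ΨU = ΨU := rho_mono (hUW.trans (hWH.trans hHF)) hU.supp
  -- the key lemma
  have key : ∀ L, Ind k l L → (∀ b ∈ x :: (B ++ BU), b ∈ L) →
      ge k x * phi l L (Q * bd k ι (ge k y * ΨU)) ≠ 0 →
      (∃ L2, (x :: L2) <:+ L ∧ S ⊔ U ≤ sp l L2) ∧
      ge k x * phi l L (Q * bd k ι (ge k y * ΨU)) = ge k x * phi l L Q * phi l L ΨU := by
    intro L hL hsub hne
    have hxL : x ∈ L := hsub x (by simp)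
    have hBL : ∀ b ∈ B, b ∈ L := fun b hb => hsub b (by simp [hb])
    have hBUL : ∀ b ∈ BU, b ∈ L := fun b hb => hsub b (by simp [hb])
    have hxBL : ∀ b ∈ x :: B, b ∈ L := fun b hb => by
      rcases List.mem_cons.1 hb with rfl | hb
      · exact hxL
      · exact hBL b hb
    rw [map_mul, ← mul_assoc] at hne ⊢
    have hne1 : ge k x * phi l L Q ≠ 0 := fun h0 => hne (by rw [h0, zero_mul])
    have hne2 : phi l L (bd k ι (ge k y * ΨU)) ≠ 0 := fun h0 => hne (by rw [h0, mul_zero])
    obtain ⟨L2, hL2, hSL2⟩ := h.ii L hL hxBL hne1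
    have hSL : S ≤ sp l L := by
      rw [← h.spB]; exact sp_mono l hBL
    have hUL : U ≤ sp l L := by
      rw [← hU.spB]; exact sp_mono l hBUL
    have hyL : l y ∈ sp (k := k) l L := by
      rw [hy]
      exact Submodule.add_mem _ (Submodule.add_mem _ (Submodule.smul_mem _ _ (mem_sp l hxL))
        (hSL hs)) (hUL hw)
    obtain ⟨z, L3, hz1, hz2, hz3, hz4⟩ := fl_ev_mem hl L hyL
    have hphiy : phi l L (ge k y) = ge k z := by
      rw [phi, ExteriorAlgebra.map_apply_ι, hz4]
    have hbd : phi l L (bd k ι (ge k y * ΨU)) = bd k ι (ge k z * phi l L ΨU) := by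
      rw [bd_phi hl, map_mul, hphiy]
      rw [map_mul, rho_ge hyL, rho_mono hUL hU.supp]
    have hne3 : ge k z * phi l L ΨU ≠ 0 := by
      intro h0
      apply hne2
      rw [hbd, h0, map_zero]
    have hne4 : phi l L ΨU ≠ 0 := fun h0 => hne3 (by rw [h0, mul_zero])
    have hzBU : z ∉ BU := fun h0 => hne3 (hU.pb L hL hBUL z h0)
    have hxU : l x ∉ U := fun h0 => hxH (hWH (hUW h0))
    have hxBU : x ∉ BU := fun h0 => hxU (by rw [← hU.spB]; exact mem_sp l h0)
    have hwBU : w ∈ sp (k := k) l BU := by rw [hU.spB]; exact hw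
    have hxL2 : x ∉ L2 := nodup_of_suffix hL.1 hL2
    -- `z :: L3 = x :: L2`
    have heq : z :: L3 = x :: L2 := by
      rcases List.suffix_or_suffix_of_suffix hL2 hz1 with h1 | h1
      · rcases List.suffix_cons_iff.1 h1 with h2 | h2
        · exact h2.symm
        · exfalso
          have hL3 : ∀ j ∈ L3, j ∈ L := fun j hj => hz1.subset (List.mem_cons_of_mem _ hj)
          have hlx : l x ∈ sp (k := k) l L3 := mem_sp l (h2.subset (by simp))
          have hs3 : s ∈ sp (k := k) l L3 :=
            sp_mono l (fun j hj => h2.subset (List.mem_cons_of_mem _ hj)) (hSL2 hs)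
          have hw3 : w ∈ sp (k := k) l (z :: L3) := by
            have e1 : w = l y - (a • l x + s) := by rw [hy]; abel
            rw [e1]
            refine Submodule.sub_mem _ hz2 ?_
            refine sp_mono l (fun j hj => List.mem_cons_of_mem _ hj) ?_
            exact Submodule.add_mem _ (Submodule.smul_mem _ _ hlx) hs3
          have hw4 : w ∈ sp (k := k) l L3 := by
            refine mem_inter hL (A := z :: L3) (B := BU) (fun j hj => hz1.subset hj) hBUL ?_ hw3
              hwBU
            intro j hj1 hj2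
            rcases List.mem_cons.1 hj1 with rfl | hj
            · exact absurd hj2 hzBU
            · exact hj
          apply hz3
          rw [hy]
          exact Submodule.add_mem _ (Submodule.add_mem _ (Submodule.smul_mem _ _ hlx) hs3) hw4
      · rcases List.suffix_cons_iff.1 h1 with h2 | h2
        · exact h2
        · exfalso
          have hy2 : l y ∈ sp (k := k) l L2 := sp_mono l (fun j hj => h2.subset hj) hz2
          have h3 : a • l x + w ∈ sp (k := k) l L2 := by
            have e1 : a • l x + w = l y - s := by rw [hy]; abel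
            rw [e1]
            exact Submodule.sub_mem _ hy2 (hSL2 hs)
          have h4 : a • l x + w ∈ sp (k := k) l (x :: BU) :=
            Submodule.add_mem _ (Submodule.smul_mem _ _ (mem_sp l (by simp)))
              (sp_mono l (fun j hj => List.mem_cons_of_mem _ hj) hwBU)
          have h5 : a • l x + w ∈ sp (k := k) l BU := by
            refine mem_inter hL (A := L2) (B := x :: BU)
              (fun j hj => hL2.subset (List.mem_cons_of_mem _ hj)) ?_ ?_ h3 h4
            · intro j hj
              rcases List.mem_cons.1 hj with rfl | hj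
              · exact hxL
              · exact hBUL j hj
            · intro j hj1 hj2
              rcases List.mem_cons.1 hj2 with rfl | hj
              · exact absurd hj1 hxL2
              · exact hj
          have h6 : a • l x ∈ sp (k := k) l BU := by
            have := Submodule.sub_mem _ h5 hwBU
            simpa using this
          rw [Submodule.smul_mem_iff _ ha, hU.spB] at h6
          exact hxU h6
    obtain ⟨rfl, rfl⟩ : z = x ∧ L3 = L2 := by
      simpa using heq
    constructor
    · refine ⟨L3, hL2, sup_le hSL2 ?_⟩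
      refine hU.q L hL hBUL hne4 L3 ((List.suffix_cons z L3).trans hL2) ?_
      have hw3 : w ∈ sp (k := k) l (z :: L3) := by
        have e1 : w = l y - (a • l z + s) := by rw [hy]; abel
        rw [e1]
        refine Submodule.sub_mem _ hz2 (Submodule.add_mem _ (Submodule.smul_mem _ _
          (mem_sp l (by simp))) ?_)
        exact sp_mono l (fun j hj => List.mem_cons_of_mem _ hj) (hSL2 hs)
      refine mem_inter hL (A := z :: L3) (B := BU) (fun j hj => hz1.subset hj) hBUL ?_ hw3 hwBU
      intro j hj1 hj2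
      rcases List.mem_cons.1 hj1 with rfl | hj
      · exact absurd hj2 hzBU
      · exact hj
    · rw [hbd, bd_ge_mul, mul_sub, ge_mul_mul_ge, sub_zero]
  refine ⟨?_, hindBU, ?_, ?_, ?_, ?_, ?_, ?_, ?_, ?_, ?_⟩
  · exact h.sep.trans hS
  · rw [sp_append, h.spB, hU.spB]
  · rw [List.length_append]
    refine Gr_mul h.degQ (bd_Gr ?_)
    rw [add_comm]
    exact Gr_mul (ι_mem_Gr _) hU.deg
  · rw [List.length_append]
    exact Gr_mul h.degC hU.deg
  · rw [map_mul, h.supQ, rho_bd]
    rw [map_mul, rho_ge hyF, hΨF]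
  · rw [map_mul, rho_mono le_sup_left h.supC, rho_mono le_sup_right hU.supp]
  · intro L' hL' hsub
    have hBL : ∀ b ∈ B, b ∈ L' := fun b hb => hsub b (by simp [hb])
    have hBUL : ∀ b ∈ BU, b ∈ L' := fun b hb => hsub b (by simp [hb])
    rw [map_mul, map_mul (phi l (x :: L')) C ΨU, ← mul_assoc, ← mul_assoc, h.i L' hL' hBL]
    have hyL : l y ∈ sp (k := k) l (x :: L') := by
      rw [hy]
      refine Submodule.add_mem _ (Submodule.add_mem _ (Submodule.smul_mem _ _
        (mem_sp l (by simp))) ?_) ?_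
      · refine sp_mono l (fun j hj => List.mem_cons_of_mem _ (hBL j hj)) ?_
        rw [h.spB]; exact hs
      · refine sp_mono l (fun j hj => List.mem_cons_of_mem _ (hBUL j hj)) ?_
        rw [hU.spB]; exact hw
    obtain ⟨z, L3, hz1, hz2, hz3, hz4⟩ := fl_ev_mem hl (x :: L') hyL
    have hzx : z = x := by
      rcases List.suffix_cons_iff.1 hz1 with h2 | h2
      · simp only [List.cons.injEq] at h2
        exact h2.1
      · exfalso
        have hy2 : l y ∈ sp (k := k) l L' := sp_mono l (fun j hj => h2.subset hj) hz2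
        apply (ind_cons.1 hL').2
        rw [← Submodule.smul_mem_iff _ ha]
        have e1 : a • l x = l y - (s + w) := by rw [hy]; abel
        rw [e1]
        refine Submodule.sub_mem _ hy2 (Submodule.add_mem _ ?_ ?_)
        · refine sp_mono l hBL ?_
          rw [h.spB]; exact hs
        · refine sp_mono l hBUL ?_
          rw [hU.spB]; exact hw
    have hphiy : phi l (x :: L') (ge k y) = ge k x := by
      rw [phi, ExteriorAlgebra.map_apply_ι, hz4, hzx]
    rw [bd_ge_mul, map_sub, map_mul, hphiy, mul_sub, ge_mul_mul_ge, sub_zero]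
  · intro L hL hsub hne
    exact (key L hL hsub hne).1
  · intro L hL hsub b hb
    by_cases hne : ge k x * phi l L (Q * bd k ι (ge k y * ΨU)) = 0
    · rw [hne, mul_zero]
    · rw [(key L hL hsub hne).2]
      have hxBL : ∀ b ∈ x :: B, b ∈ L := fun b hb => by
        rcases List.mem_cons.1 hb with rfl | hb
        · exact hsub _ (by simp)
        · exact hsub _ (by simp [hb])
      have hBUL : ∀ b ∈ BU, b ∈ L := fun b hb => hsub b (by simp [hb])
      by_cases hb' : b ∈ x :: B
      · rw [← mul_assoc, h.iii L hL hxBL b hb', zero_mul]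
      · have hbU : b ∈ BU := by
          rcases List.mem_cons.1 hb with rfl | hb
          · exact absurd (by simp) hb'
          · rcases List.mem_append.1 hb with hb | hb
            · exact absurd (List.mem_cons_of_mem _ hb) hb'
            · exact hb
        rw [← mul_assoc, ι_mul_comm, mul_assoc, hU.pb L hL hBUL b hbU, mul_zero]
  · intro R α hR hα
    obtain ⟨u1, hu1, hu1'⟩ := h.evl R α hR hα
    obtain ⟨u2, hu2, hu2'⟩ := hU.evl R α hR hα
    refine ⟨u1 * u2, R.mul_mem hu1 hu2, ?_⟩
    rw [T_mul hl α hα hDis _ rfl hindBU h.spB.le hU.spB.le h.degC hU.deg h.supC hU.supp]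
    linear_combination u2 * T l α BU ΨU * hu1' + hu2'

end Stg

end Pool.Agent.helper43.NDB
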