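import Mathlib
import Pool.Agent.helper67.ND.Defs
import Pool.Agent.helper43.NDB.B6

/-!
Module B of the proof of the `n/d` conjecture: the element attached to a connected matroid.
-/

set_option linter.unusedSectionVars false
set_option linter.unusedVariables false

namespace Pool.Agent.helper43.NDB

open Pool.Agent.helper67.ND

open scoped BigOperators

section conn

variable {k K : Type} [Field k] [Field K] [Algebra k K]
variable {ι : Type} [Fintype ι] {V : Type} [AddCommGroup V] [Module k V]

/-- The value of the kernel at the last stage. -/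
theorem T_final {l : ι → V} (hl : ∀ i, l i ≠ 0) {F H : Submodule k V} {x : ι}
    (hxH : l x ∉ H) (hF : Submodule.span k {l x} ⊔ H = F) {B : List ι}
    {Q C : ExteriorAlgebra k (ι → k)} (h : Stg K l F H x H ⊥ B Q C) (α : ι → K) :
    T l α (x :: B) (ge k x * Q) = (al l α F)⁻¹ * T l α B C := by
  have hind : Ind k l (x :: B) := ind_cons.2 ⟨h.ind, by rw [h.spB]; exact hxH⟩
  have hsp : sp (k := k) l (x :: B) = F := by rw [sp_cons, h.spB, hF]
  rw [T_rec α hind (by simp), E]
  have h1 : T l α B (bd k ι (rho l (sp l (x :: B)) (ge k x * Q))) = T l α B C := by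
    refine T_congr hl α h.ind fun L' hL' => ?_
    have hL2 : Ind k l (x :: L') := hind.perm (hL'.cons x).symm
    rw [sp_perm l (hL'.cons x).symm, phi_bd_rho hl hL2, map_mul, phi_ge_self hl hL2 (by simp),
      h.i L' hL2 (fun b hb => hL'.mem_iff.2 hb), bd_ge_mul, map_sub, map_mul,
      ExteriorAlgebra.map_apply_ι, ka_ev, map_zero, zero_mul, sub_zero, phi, map_map',
      ka_comp_fl (List.nodup_cons.1 hL2.1).1]
    rfl
  have h2 : E B (fun M => T l α (x :: M) (bd k ι (rho l (sp l (x :: B)) (ge k x * Q)))) = 0 := by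
    refine E_vanish _ _ fun b M hM => ?_
    have hp0 : (b :: x :: M).Perm (x :: B) := (List.Perm.swap x b M).trans (hM.cons x)
    have hIM : Ind k l (x :: M) := (hind.perm hp0.symm).of_cons
    refine T_zero' hl α hIM fun L' hL' => ?_
    have hp : (b :: L').Perm (x :: B) := (hL'.cons b).trans hp0
    have hind' : Ind k l (b :: L') := hind.perm hp.symm
    rw [sp_perm l hp.symm, phi_bd_rho hl hind', map_mul,
      phi_ge_self hl hind' (hp.mem_iff.2 (by simp))]
    have hz : ge k x * phi l (b :: L') Q = 0 := by
      by_contra hne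
      obtain ⟨L2, hL2, hHL2⟩ := h.ii (b :: L') hind' (fun c hc => hp.mem_iff.2 hc) hne
      have hbB : b ∈ B := hM.mem_iff.1 (by simp)
      rcases List.suffix_cons_iff.1 hL2 with h3 | h3
      · simp only [List.cons.injEq] at h3
        have := (List.nodup_cons.1 hind.1).1
        rw [h3.1] at this
        exact this hbB
      · apply (ind_cons.1 hind').2
        have h4 : l b ∈ H := by rw [← h.spB]; exact mem_sp l hbB
        exact sp_mono l (fun j hj => h3.subset (List.mem_cons_of_mem _ hj)) (hHL2 h4)
    rw [hz, map_zero, map_zero]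
  rw [h1, h2, hsp, sub_zero]

/-- The last stage gives the element attached to `F`. -/
theorem pk_final {l : ι → V} (hl : ∀ i, l i ≠ 0) {F H : Submodule k V} {x : ι}
    (hxF : l x ∈ F) (hxH : l x ∉ H) (hF : Submodule.span k {l x} ⊔ H = F) {v : V} (hv : v ∈ F)
    (hvH : v ∉ H) {B : List ι} {Q C : ExteriorAlgebra k (ι → k)}
    (h : Stg K l F H x H ⊥ B Q C) :
    Pk K l F v (x :: B) (ge k x * Q) where
  ind := ind_cons.2 ⟨h.ind, by rw [h.spB]; exact hxH⟩
  spB := by rw [sp_cons, h.spB, hF]
  deg := by
    rw [List.length_cons, add_comm]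
    exact Gr_mul (ι_mem_Gr _) h.degQ
  supp := by rw [map_mul, rho_ge hxF, h.supQ]
  pb := by
    intro L hL hsub b hb
    rw [map_mul, phi_ge_self hl hL (hsub x (by simp))]
    exact h.iii L hL hsub b hb
  q := by
    intro L hL hsub hne L2 hL2 hvL2
    rw [map_mul, phi_ge_self hl hL (hsub x (by simp))] at hne
    obtain ⟨L3, hL3, hHL3⟩ := h.ii L hL hsub hne
    have hFL3 : F ≤ sp l (x :: L3) := by
      rw [← hF, sp_cons]
      exact sup_le_sup le_rfl hHL3
    have hsp : sp (k := k) l (x :: B) = F := by rw [sp_cons, h.spB, hF]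
    rcases List.suffix_or_suffix_of_suffix hL3 hL2 with h1 | h1
    · exact hFL3.trans (sp_mono l (fun j hj => h1.subset hj))
    · rcases List.suffix_cons_iff.1 h1 with h2 | h2
      · rw [h2]; exact hFL3
      · exfalso
        apply hvH
        rw [← h.spB]
        have hv3 : v ∈ sp (k := k) l L3 := sp_mono l (fun j hj => h2.subset hj) hvL2
        refine mem_inter hL (A := L3) (B := x :: B)
          (fun j hj => hL3.subset (List.mem_cons_of_mem _ hj)) hsub ?_ hv3 (by rw [hsp]; exact hv)
        intro j hj1 hj2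
        rcases List.mem_cons.1 hj2 with rfl | hj
        · exact absurd hj1 (nodup_of_suffix hL.1 hL3)
        · exact hj
  evl := by
    intro R α hR hα
    obtain ⟨u, hu, hu'⟩ := h.evl R α hR hα
    classical
    refine ⟨al l α F * u, R.mul_mem ?_ hu, ?_⟩
    · rw [al]
      refine R.sum_mem fun i _ => ?_
      split_ifs
      · exact hR i
      · exact R.zero_mem
    · rw [T_final hl hxH hF h]
      have hal : al l α F ≠ 0 := hα F ⟨x, hxF⟩
      field_simp
      exact hu'

variable [FiniteDimensional k V]

/-- Running the stages. -/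
theorem stages {l : ι → V} (hl : ∀ i, l i ≠ 0) {F H : Submodule k V} {x : ι}
    (hxF : l x ∈ F) (hxH : l x ∉ H) (hHF : H ≤ F) (hF : Submodule.span k {l x} ⊔ H = F)
    (hSpnH : Spn l H) (hconn : ∀ A B, Sep l F A B → A = ⊥ ∨ B = ⊥)
    (IH : ∀ U : Submodule k V, U ≤ H → Spn l U → ∀ w ∈ U, Full l U w →
      ∃ B Ψ, Pk K l U w B Ψ) :
    ∀ (n : ℕ) (S W : Submodule k V) (B : List ι) (Q C : ExteriorAlgebra k (ι → k)),
      Module.finrank k W ≤ n → Stg K l F H x S W B Q C →
      ∃ B' Q' C', Stg K l F H x H ⊥ B' Q' C' := by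
  intro n
  induction n with
  | zero =>
    intro S W B Q C hW h
    have h0 : W = ⊥ := Submodule.finrank_eq_zero.1 (by omega)
    subst h0
    have : S = H := by
      have := h.sep.sup
      simpa using this
    subst this
    exact ⟨B, Q, C, h⟩
  | succ n ih =>
    intro S W B Q C hW h
    by_cases h0 : W = ⊥
    · subst h0
      have : S = H := by
        have := h.sep.sup
        simpa using this
      subst this
      exact ⟨B, Q, C, h⟩
    · have hWH : W ≤ H := h.sep.le_right
      have hSH : S ≤ H := h.sep.le_left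
      have hex : ∃ (y : ι) (a : k) (s w : V), s ∈ S ∧ w ∈ W ∧ w ≠ 0 ∧ a ≠ 0 ∧
          l y = a • l x + s + w := by
        by_contra hno
        push Not at hno
        have hsep : Sep l F (Submodule.span k {l x} ⊔ S) W := by
          refine ⟨?_, ?_, ?_⟩
          · rw [sup_assoc, h.sep.sup, hF]
          · rw [Submodule.disjoint_def]
            intro v hv hvW
            obtain ⟨p, hp, s, hs, rfl⟩ := Submodule.mem_sup.1 hv
            obtain ⟨c, rfl⟩ := Submodule.mem_span_singleton.1 hp
            have h1 : c • l x ∈ H := by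
              have := H.sub_mem (hWH hvW) (hSH hs)
              simpa using this
            have hc : c = 0 := by
              by_contra hc
              exact hxH ((Submodule.smul_mem_iff _ hc).1 h1)
            rw [hc, zero_smul, zero_add] at hvW ⊢
            exact Submodule.disjoint_def.1 h.sep.dj s hs hvW
          · intro j hj
            by_cases hjH : l j ∈ H
            · rcases h.sep.mem j hjH with h1 | h1
              · left; exact Submodule.mem_sup_right h1
              · right; exact h1
            · left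
              rw [← hF] at hj
              obtain ⟨p, hp, q, hq, hpq⟩ := Submodule.mem_sup.1 hj
              obtain ⟨c, rfl⟩ := Submodule.mem_span_singleton.1 hp
              rw [← h.sep.sup] at hq
              obtain ⟨s, hs, w, hw, rfl⟩ := Submodule.mem_sup.1 hq
              have hc : c ≠ 0 := by
                rintro rfl
                apply hjH
                rw [← hpq, zero_smul, zero_add]
                exact H.add_mem (hSH hs) (hWH hw)
              by_cases hw0 : w = 0
              · rw [← hpq, hw0, add_zero]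
                exact Submodule.add_mem _ (Submodule.mem_sup_left hp) (Submodule.mem_sup_right hs)
              · exfalso
                refine hno j c s w hs hw hw0 hc ?_
                rw [← hpq, add_assoc]
        rcases hconn _ _ hsep with h1 | h1
        · have h2 : l x ∈ Submodule.span k {l x} ⊔ S :=
            Submodule.mem_sup_left (Submodule.mem_span_singleton_self _)
          rw [h1, Submodule.mem_bot] at h2
          exact hl x h2
        · exact h0 h1
      obtain ⟨y, a, s, w, hs, hw, hw0, ha, hy⟩ := hex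
      obtain ⟨W', U, hS, hwU, hfull⟩ := exists_full l _ W le_rfl w hw
      have hU0 : U ≠ ⊥ := by
        rintro rfl
        exact hw0 (by simpa using hwU)
      have hSpnU : Spn l U := hS.symm.spn (h.sep.symm.spn hSpnH)
      obtain ⟨BU, ΨU, hU⟩ := IH U (hS.le_right.trans hWH) hSpnU w hwU hfull
      have hst := stg_step hl hxF hxH hHF h hS.symm hs hwU ha hy hU
      have hfin := hS.finrank
      have hpos := finrank_pos' hU0
      exact ih _ _ _ _ _ (by omega) hst

/-- The connected case. -/
theorem conn_case {l : ι → V} (hl : ∀ i, l i ≠ 0) {F : Submodule k V}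
    (hSpn : Spn l F) (hconn : ∀ A B, Sep l F A B → A = ⊥ ∨ B = ⊥) {v : V} (hv : v ∈ F)
    (hv0 : v ≠ 0)
    (IH : ∀ U : Submodule k V, Module.finrank k U < Module.finrank k F → Spn l U →
      ∀ w ∈ U, Full l U w → ∃ B Ψ, Pk K l U w B Ψ) :
    ∃ (x : ι) (B : List ι) (Q C : ExteriorAlgebra k (ι → k)),
      Pk K l F v (x :: B) (ge k x * Q) ∧ Evl K l B C ∧
      (∀ α : ι → K, T l α (x :: B) (ge k x * Q) = (al l α F)⁻¹ * T l α B C) := by
  obtain ⟨x, H, hxF, hxH, hHF, hF, hSpnH, hvH⟩ := exists_hyper hSpn hv hv0
  have hlt : Module.finrank k H < Module.finrank k F := by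
    refine Submodule.finrank_lt_finrank_of_lt (lt_of_le_of_ne hHF ?_)
    rintro rfl
    exact hxH hxF
  obtain ⟨B, Q, C, h⟩ := stages (K := K) hl hxF hxH hHF hF hSpnH hconn
    (fun U hU => IH U ((Submodule.finrank_mono hU).trans_lt hlt)) _ _ _ _ _ _ le_rfl
    (stg_start (K := K) l F H x)
  exact ⟨x, B, Q, C, pk_final hl hxF hxH hF hv hvH h, h.evl, fun α => T_final hl hxH hF h α⟩

theorem exists_pk {l : ι → V} (hl : ∀ i, l i ≠ 0) : ∀ (n : ℕ) (F : Submodule k V),
    Module.finrank k F < n → Spn l F → ∀ v ∈ F, Full l F v → ∃ B Ψ, Pk K l F v B Ψ := by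
  intro n
  induction n with
  | zero => intro F hF; omega
  | succ n ih =>
    intro F hF hSpn v hv hfull
    by_cases h0 : F = ⊥
    · subst h0
      exact ⟨[], 1, pk_bot l v⟩
    by_cases hconn : ∀ A B, Sep l F A B → A = ⊥ ∨ B = ⊥
    · have hv0 : v ≠ 0 := by
        rintro rfl
        exact h0 (hfull F ⊥ (Sep.bot_right l F) (Submodule.zero_mem _))
      obtain ⟨x, B, Q, C, h, -, -⟩ := conn_case (K := K) hl hSpn hconn hv hv0
        (fun U hU => ih U (by omega))
      exact ⟨_, _, h⟩
    · push Not at hconn
      obtain ⟨A, B, hS, hA, hB⟩ := hconn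
      have hfin := hS.finrank
      have hpA := finrank_pos' hA
      have hpB := finrank_pos' hB
      have hv' := hv
      rw [← hS.sup] at hv'
      obtain ⟨v1, hv1, v2, hv2, rfl⟩ := Submodule.mem_sup.1 hv'
      obtain ⟨B1, Ψ1, h1⟩ := ih A (by omega) (hS.spn hSpn) v1 hv1 (Full.left hS hv1 hv2 hfull)
      obtain ⟨B2, Ψ2, h2⟩ := ih B (by omega) (hS.symm.spn hSpn) v2 hv2
        (Full.right hS hv1 hv2 hfull)
      exact ⟨_, _, pk_mul hl hS hv1 hv2 h1 h2⟩

theorem conn_top {l : ι → V} (hspan : Submodule.span k (Set.range l) = ⊤)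
    (hconn : Conn (k := k) l) (A B : Submodule k V) (hS : Sep l ⊤ A B) :
    A = ⊥ ∨ B = ⊥ := by
  by_cases h1 : ∃ i, l i ∈ A
  · by_cases h2 : ∃ i, l i ∉ A
    · exfalso
      refine hconn {i | l i ∈ A} h1 h2 ?_
      refine hS.dj.mono ?_ ?_
      · rw [Submodule.span_le]
        rintro _ ⟨j, hj, rfl⟩
        exact hj
      · rw [Submodule.span_le]
        rintro _ ⟨j, hj, rfl⟩
        rcases hS.mem j Submodule.mem_top with h | h
        · exact absurd h hj
        · exact h
    · right
      push Not at h2
      have hA : A = ⊤ := by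
        rw [eq_top_iff, ← hspan, Submodule.span_le]
        rintro _ ⟨j, rfl⟩
        exact h2 j
      have := hS.dj
      rwa [hA, top_disjoint] at this
  · left
    push Not at h1
    have hB : B = ⊤ := by
      rw [eq_top_iff, ← hspan, Submodule.span_le]
      rintro _ ⟨j, rfl⟩
      exact (hS.mem j Submodule.mem_top).resolve_left (h1 j)
    have := hS.dj
    rwa [hB, disjoint_top] at this

end conn

section main

variable {k K : Type} [Field k] [Field K] [Algebra k K]
variable {ι : Type} [Fintype ι] {V : Type} [AddCommGroup V] [Module k V] [FiniteDimensional k V]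

/-- (B) -/
theorem exists_good (l : ι → V) (hl : ∀ i, l i ≠ 0) (hne : Nonempty ι)
    (hspan : Submodule.span k (Set.range l) = ⊤) (hconn : Conn (k := k) l) :
    ∃ (b : Fin (Module.finrank k V) → ι) (Ψ : ExteriorAlgebra k (ι → k)),
      LinearIndependent k (l ∘ b) ∧
      ∀ (R : Subring K) (α : ι → K), (∀ i, α i ∈ R) →
        (∀ W : Submodule k V, (∃ i, l i ∈ W) → al l α W ≠ 0) →
        ∃ u ∈ R, u * (al l α (⊤ : Submodule k V) *
          S l α (Module.finrank k V) (l ∘ b) Ψ) = 1 := by
  obtain ⟨i0⟩ := hne
  have hSpn : Spn l (⊤ : Submodule k V) := by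
    have h0 : (Set.range l) ⊆ l '' {j | l j ∈ (⊤ : Submodule k V)} := by
      rintro _ ⟨j, rfl⟩
      have h1 : l j ∈ (⊤ : Submodule k V) := Submodule.mem_top
      exact ⟨j, h1, rfl⟩
    exact hspan.ge.trans (Submodule.span_mono h0)
  obtain ⟨x, B, Q, C, h, hC, hT⟩ := conn_case (K := K) hl hSpn (conn_top hspan hconn)
    (v := l i0) Submodule.mem_top (hl i0)
    (fun U _ hU w hw hf => exists_pk hl _ U (Nat.lt_succ_self _) hU w hw hf)
  have hlen : (x :: B).length = Module.finrank k V := by
    have h1 := ind_iff.1 h.ind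
    have h2 : Submodule.span k (Set.range (fun i : Fin (x :: B).length => l ((x :: B).get i)))
        = ⊤ := by rw [span_range_get]; exact h.spB
    have h3 := finrank_span_eq_card (R := k) h1
    rw [h2, finrank_top, Fintype.card_fin] at h3
    exact h3.symm
  refine ⟨fun i => (x :: B).get (Fin.cast hlen.symm i), ge k x * Q, ?_, ?_⟩
  · exact (ind_iff.1 h.ind).comp _ (Fin.cast_injective hlen.symm)
  · intro R α hR hα
    obtain ⟨u, hu, hu'⟩ := hC R α hR hα
    refine ⟨u, hu, ?_⟩
    have hal : al l α (⊤ : Submodule k V) ≠ 0 := hα ⊤ ⟨x, Submodule.mem_top⟩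
    have h4 : S l α (Module.finrank k V) (l ∘ fun i => (x :: B).get (Fin.cast hlen.symm i))
        (ge k x * Q) = T l α (x :: B) (ge k x * Q) :=
      S_congr_len l α hlen.symm _ (fun i => l ((x :: B).get i)) (fun i => rfl) _
    rw [h4, hT α, mul_inv_cancel_left₀ hal]
    exact hu'

end main

end Pool.Agent.helper43.NDB
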